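import Pool.Agent.W823.QT.Stm

/-!
# QT-MIX: resampling a finite set of coordinates
-/

set_option autoImplicit false

namespace Pool.Agent.W933.QTMIX

open MeasureTheory ProbabilityTheory Pool.Agent.W823.QT
open scoped ENNReal

/-- the mixing map -/
def mx {d : ℕ} (U : Finset ℕ) (p : (ℕ → Fin d → ℤ) × (ℕ → Fin d → ℤ)) : ℕ → Fin d → ℤ :=
  fun i => if i ∈ U then p.2 i else p.1 i

lemma measurable_mx {d : ℕ} (U : Finset ℕ) : Measurable (mx (d := d) U) := by
  refine measurable_pi_lambda _ fun i => ?_
  by_cases h : i ∈ U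
  · have : (fun p : (ℕ → Fin d → ℤ) × (ℕ → Fin d → ℤ) => mx U p i) = fun p => p.2 i := by
      funext p; simp [mx, h]
    rw [this]
    exact (measurable_pi_apply i).comp measurable_snd
  · have : (fun p : (ℕ → Fin d → ℤ) × (ℕ → Fin d → ℤ) => mx U p i) = fun p => p.1 i := by
      funext p; simp [mx, h]
    rw [this]
    exact (measurable_pi_apply i).comp measurable_fst

lemma map_mx {d : ℕ} (q : Measure (Fin d → ℤ)) [IsProbabilityMeasure q] (U : Finset ℕ) :
    ((iid q).prod (iid q)).map (mx U) = iid q := by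
  unfold iid
  refine Measure.eq_infinitePi _ fun s t ht => ?_
  have hpre : mx U ⁻¹' (Set.pi (s : Set ℕ) t) =
      (Set.pi ((s.filter fun i => i ∉ U : Finset ℕ) : Set ℕ) t) ×ˢ
        (Set.pi ((s.filter fun i => i ∈ U : Finset ℕ) : Set ℕ) t) := by
    ext p
    simp only [Set.mem_preimage, Set.mem_pi, Finset.mem_coe, Set.mem_prod, Finset.mem_filter, mx]
    constructor
    · intro h
      refine ⟨fun i hi => ?_, fun i hi => ?_⟩
      · have := h i hi.1
        rwa [if_neg hi.2] at this
      · have := h i hi.1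
        rwa [if_pos hi.2] at this
    · rintro ⟨h1, h2⟩ i hi
      by_cases hU : i ∈ U
      · rw [if_pos hU]; exact h2 i ⟨hi, hU⟩
      · rw [if_neg hU]; exact h1 i ⟨hi, hU⟩
  rw [Measure.map_apply (measurable_mx U)
    (MeasurableSet.pi s.countable_toSet fun i _ => ht i), hpre, Measure.prod_prod,
    Measure.infinitePi_pi _ (fun i _ => ht i), Measure.infinitePi_pi _ (fun i _ => ht i)]
  rw [mul_comm]
  exact Finset.prod_filter_mul_prod_filter_not s (fun i => i ∈ U) (fun i => q (t i))

theorem main : MIX_T := by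
  intro d q _ U H hH
  have hp : IsProbabilityMeasure (iid q) := by unfold iid; infer_instance
  conv_lhs => rw [← map_mx q U]
  rw [lintegral_map hH (measurable_mx U)]
  exact lintegral_prod (fun p => H (mx U p)) (hH.comp (measurable_mx U)).aemeasurable

end Pool.Agent.W933.QTMIX
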