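import Pool.Agent.W979.TE.Defs3

/-!
# Project TE3: double counting
-/

set_option autoImplicit false

open Classical

namespace Pool.Agent.W933.TE3DT

open Pool.Agent.W979.TE3 Pool.Agent.W715.BC Finset

theorem cn_symm {A B : Type} [Fintype B] (r : A → B → Prop) (x x' : A) : cn r x x' = cn r x' x := by
  unfold cn
  ext y
  simp [and_comm]

theorem lk_symm {A B : Type} [Fintype B] {r : A → B → Prop} {L : ℕ} {x x' : A}
    (h : Lk r L x x') : Lk r L x' x := by
  refine ⟨h.1.symm, ?_, ?_⟩
  · rw [cn_symm]; exact h.2.1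
  · rw [cn_symm]; exact h.2.2

theorem dc : S_DC := by
  intro A B _ _ r L k m F
  have h1 : ∀ Q : Fin k → A, (Ft r L Q).card ^ m =
      ∑ w : Fin m → A, if (∀ i, Q i ∈ Ft r L w) then 1 else 0 := by
    intro Q
    rw [← Finset.card_filter]
    have h2 : univ.filter (fun w : Fin m → A => ∀ i, Q i ∈ Ft r L w) =
        Fintype.piFinset (fun _ : Fin m => Ft r L Q) := by
      ext w
      simp only [mem_filter, mem_univ, true_and, Fintype.mem_piFinset, Ft]
      constructor
      · intro h j i
        exact lk_symm (h i j)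
      · intro h i j
        exact lk_symm (h j i)
    rw [h2, Fintype.card_piFinset, Finset.prod_const, Finset.card_univ, Fintype.card_fin]
  simp_rw [h1]
  rw [Finset.sum_comm]
  refine Finset.sum_congr rfl fun w _ => ?_
  rw [Finset.card_filter]

theorem tb : S_TB := by
  intro A B _ _ r L k m K D lam hk hlam hR _
  -- one pair
  have h1 : ∀ (w : Fin k → A) (y : B),
      (((Ft r L w).filter (fun u => r u y)).card : ℝ) * ((Ft r L w).card : ℝ) ^ m ≤
        K / lam * ((Ft r L w).card : ℝ) ^ (m + 1) + (K : ℝ) * D * (lam * D) ^ m := by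
    intro w y
    set f : ℝ := ((Ft r L w).card : ℝ) with hf
    set g : ℝ := (((Ft r L w).filter (fun u => r u y)).card : ℝ) with hg
    have hf0 : 0 ≤ f := Nat.cast_nonneg _
    have hgK : g ≤ (K : ℝ) * D := by
      have h2 : ((Ft r L w).filter (fun u => r u y)).card ≤ K * D := by
        refine (Finset.card_le_card ?_).trans (hR.ub y)
        intro u hu
        rw [mem_filter] at hu ⊢
        exact ⟨mem_univ _, hu.2⟩
      rw [hg, ← Nat.cast_mul]
      exact_mod_cast h2
    have hK0 : (0 : ℝ) ≤ K := Nat.cast_nonneg _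
    have hD0 : (0 : ℝ) ≤ D := Nat.cast_nonneg _
    rcases le_total (lam * D) f with h | h
    · have h3 : g ≤ K / lam * f := by
        refine hgK.trans ?_
        rw [div_mul_eq_mul_div, le_div_iff₀ hlam, mul_assoc]
        refine mul_le_mul_of_nonneg_left ?_ hK0
        linarith
      have h4 : g * f ^ m ≤ K / lam * f ^ (m + 1) := by
        calc g * f ^ m ≤ K / lam * f * f ^ m := mul_le_mul_of_nonneg_right h3 (by positivity)
          _ = _ := by ring
      have h5 : 0 ≤ (K : ℝ) * D * (lam * D) ^ m := by positivity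
      linarith
    · have h4 : g * f ^ m ≤ (K : ℝ) * D * (lam * D) ^ m :=
        mul_le_mul hgK (pow_le_pow_left₀ hf0 h m) (by positivity) (by positivity)
      have h5 : 0 ≤ K / lam * f ^ (m + 1) := by positivity
      linarith
  -- few common neighbours of a nice tuple
  have h2 : ∀ w : Fin k → A, Nice r L w →
      ((univ.filter (fun y : B => ∀ i, r (w i) y)).card : ℝ) ≤ L := by
    intro w hw
    have h3 := hw ⟨0, by omega⟩ ⟨1, by omega⟩ (by simp)
    have h4 : (univ.filter (fun y : B => ∀ i, r (w i) y)).card ≤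
        (cn r (w ⟨0, by omega⟩) (w ⟨1, by omega⟩)).card := by
      apply Finset.card_le_card
      intro y hy
      unfold cn
      rw [mem_filter] at hy ⊢
      exact ⟨mem_univ _, hy.2 _, hy.2 _⟩
    have h5 := h4.trans h3.2.le
    exact_mod_cast h5
  -- number of pairs
  have h3 : ((∑ w : Fin k → A, (univ.filter (fun y : B => ∀ i, r (w i) y)).card : ℕ) : ℝ) ≤
      (Fintype.card B : ℝ) * ((K : ℝ) * D) ^ k := by
    have h4 : ∑ w : Fin k → A, (univ.filter (fun y : B => ∀ i, r (w i) y)).card =
        ∑ y : B, (deg2 r y) ^ k := by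
      simp_rw [Finset.card_filter]
      rw [Finset.sum_comm]
      refine Finset.sum_congr rfl fun y _ => ?_
      rw [← Finset.card_filter]
      have h5 : univ.filter (fun w : Fin k → A => ∀ i, r (w i) y) =
          Fintype.piFinset (fun _ : Fin k => univ.filter (fun a : A => r a y)) := by
        ext w
        simp only [mem_filter, mem_univ, true_and, Fintype.mem_piFinset]
      rw [h5, Fintype.card_piFinset, Finset.prod_const, Finset.card_univ, Fintype.card_fin]
      rfl
    have h6 : ∑ y : B, (deg2 r y) ^ k ≤ ∑ _y : B, (K * D) ^ k :=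
      Finset.sum_le_sum fun y _ => Nat.pow_le_pow_left (hR.ub y) k
    rw [Finset.sum_const, Finset.card_univ, smul_eq_mul, ← h4] at h6
    exact_mod_cast h6
  push_cast
  -- sum over pairs
  have hc : (0 : ℝ) ≤ (K : ℝ) * D * (lam * D) ^ m := by positivity
  have h7 : ∀ w ∈ univ.filter (fun w : Fin k → A => Nice r L w),
      ∑ y ∈ univ.filter (fun y : B => ∀ i, r (w i) y),
        (((Ft r L w).filter (fun u => r u y)).card : ℝ) * ((Ft r L w).card : ℝ) ^ m ≤
      (L : ℝ) * K / lam * ((Ft r L w).card : ℝ) ^ (m + 1) +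
        ((univ.filter (fun y : B => ∀ i, r (w i) y)).card : ℝ) *
          ((K : ℝ) * D * (lam * D) ^ m) := by
    intro w hw
    rw [mem_filter] at hw
    refine (Finset.sum_le_sum fun y _ => h1 w y).trans ?_
    rw [Finset.sum_const, nsmul_eq_mul, mul_add]
    refine add_le_add ?_ le_rfl
    have h8 : 0 ≤ K / lam * ((Ft r L w).card : ℝ) ^ (m + 1) := by positivity
    calc ((univ.filter (fun y : B => ∀ i, r (w i) y)).card : ℝ) *
        (K / lam * ((Ft r L w).card : ℝ) ^ (m + 1)) ≤
        L * (K / lam * ((Ft r L w).card : ℝ) ^ (m + 1)) :=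
          mul_le_mul_of_nonneg_right (h2 w hw.2) h8
      _ = _ := by ring
  refine (Finset.sum_le_sum h7).trans ?_
  rw [Finset.sum_add_distrib, ← Finset.mul_sum, ← Finset.sum_mul]
  refine add_le_add ?_ ?_
  · refine mul_le_mul_of_nonneg_left ?_ (by positivity)
    exact Finset.sum_le_sum_of_subset_of_nonneg (Finset.filter_subset _ _)
      fun w _ _ => by positivity
  · have h9 : ∑ w ∈ univ.filter (fun w : Fin k → A => Nice r L w),
        ((univ.filter (fun y : B => ∀ i, r (w i) y)).card : ℝ) ≤
        (Fintype.card B : ℝ) * ((K : ℝ) * D) ^ k := by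
      refine le_trans ?_ h3
      push_cast
      exact Finset.sum_le_sum_of_subset_of_nonneg (Finset.filter_subset _ _)
        fun w _ _ => by positivity
    calc (∑ w ∈ univ.filter (fun w : Fin k → A => Nice r L w),
        ((univ.filter (fun y : B => ∀ i, r (w i) y)).card : ℝ)) *
          ((K : ℝ) * D * (lam * D) ^ m) ≤
        (Fintype.card B : ℝ) * ((K : ℝ) * D) ^ k * ((K : ℝ) * D * (lam * D) ^ m) :=
          mul_le_mul_of_nonneg_right h9 hc
      _ = _ := by rw [pow_succ]; ring

end Pool.Agent.W933.TE3DT
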