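import Pool.Agent.W236.TZ.Defs

/-!
# Project TZ, part LAG
-/

set_option autoImplicit false

namespace Pool.Agent.W933.TZLag

open Finset Polynomial

/-- the identity in terms of the nodes -/
theorem aux {ι : Type} [DecidableEq ι] (s : Finset ι) (y b : ι → ℚ) (hs : s.Nonempty)
    (hy : Set.InjOn y s) :
    ∑ i ∈ s, (∏ j ∈ s, (y i - b j)) / ∏ j ∈ s.erase i, (y i - y j) =
      ∑ j ∈ s, y j - ∑ j ∈ s, b j := by
  have hcard : 0 < s.card := Finset.card_pos.2 hs
  set P : ℚ[X] := ∏ j ∈ s, (X - C (b j)) - ∏ j ∈ s, (X - C (y j)) with hP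
  have hm1 : (∏ j ∈ s, (X - C (b j))).Monic := monic_prod_of_monic _ _ fun j _ => monic_X_sub_C _
  have hm2 : (∏ j ∈ s, (X - C (y j))).Monic := monic_prod_of_monic _ _ fun j _ => monic_X_sub_C _
  have hd1 : (∏ j ∈ s, (X - C (b j))).natDegree = s.card := by
    rw [natDegree_prod_of_monic _ _ fun j _ => monic_X_sub_C _]
    simp
  have hd2 : (∏ j ∈ s, (X - C (y j))).natDegree = s.card := by
    rw [natDegree_prod_of_monic _ _ fun j _ => monic_X_sub_C _]
    simp
  have hdeg : P.degree < (s.card : WithBot ℕ) := by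
    have h1 : (∏ j ∈ s, (X - C (b j))).degree = (s.card : WithBot ℕ) := by
      rw [degree_eq_natDegree hm1.ne_zero, hd1]
    have h2 : (∏ j ∈ s, (X - C (y j))).degree = (s.card : WithBot ℕ) := by
      rw [degree_eq_natDegree hm2.ne_zero, hd2]
    rw [← h1]
    apply degree_sub_lt
    · rw [h1, h2]
    · exact hm1.ne_zero
    · rw [hm1.leadingCoeff, hm2.leadingCoeff]
  have h1 := Lagrange.coeff_eq_sum (P := P) hy hdeg
  have h2 : P.coeff (s.card - 1) = ∑ j ∈ s, y j - ∑ j ∈ s, b j := by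
    rw [hP, coeff_sub, prod_X_sub_C_coeff_card_pred s b hcard,
      prod_X_sub_C_coeff_card_pred s y hcard]
    ring
  rw [← h2, h1]
  refine Finset.sum_congr rfl fun i hi => ?_
  congr 1
  rw [hP, eval_sub, eval_prod, eval_prod]
  have h3 : ∏ j ∈ s, eval (y i) (X - C (y j)) = 0 := by
    apply Finset.prod_eq_zero hi
    simp
  rw [h3, sub_zero]
  simp

/-- Part LAG of project TZ. -/
theorem lag : Pool.Agent.W236.TZ.S_LAG := by
  intro ι _ s x hx1 hx
  rcases s.eq_empty_or_nonempty with rfl | hs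
  · simp
  set y : ι → ℚ := fun i => x i * (x i - 1) with hy
  set b : ι → ℚ := fun i => x i * (x i + 1) with hb
  have hne : ∀ i ∈ s, ∀ j ∈ s, i ≠ j → y i - y j ≠ 0 := by
    intro i hi j hj hij h
    have h1 : (x i - x j) * (x i + x j - 1) = 0 := by
      have : y i - y j = (x i - x j) * (x i + x j - 1) := by
        simp only [hy]; ring
      rw [← this, h]
    have h2 := hx1 i hi
    have h3 := hx1 j hj
    rcases mul_eq_zero.1 h1 with h4 | h4
    · exact hx i hi j hj hij (by linarith)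
    · linarith
  have hinj : Set.InjOn y s := by
    intro i hi j hj hij
    by_contra h
    exact hne i hi j hj h (by rw [hij, sub_self])
  have h1 := aux s y b hs hinj
  have h2 : ∑ j ∈ s, y j - ∑ j ∈ s, b j = -2 * ∑ i ∈ s, x i := by
    rw [← Finset.sum_sub_distrib, Finset.mul_sum]
    refine Finset.sum_congr rfl fun i _ => ?_
    simp only [hy, hb]
    ring
  have h3 : ∑ i ∈ s, (∏ j ∈ s, (y i - b j)) / ∏ j ∈ s.erase i, (y i - y j) =
      -2 * ∑ i ∈ s, x i * ∏ j ∈ s.erase i,
        ((x i - 1 - x j) * (x i + x j)) / ((x i - 1 + x j) * (x i - x j)) := by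
    rw [Finset.mul_sum]
    refine Finset.sum_congr rfl fun i hi => ?_
    rw [← Finset.mul_prod_erase s _ hi]
    have h4 : ∏ j ∈ s.erase i, ((x i - 1 - x j) * (x i + x j)) / ((x i - 1 + x j) * (x i - x j)) =
        (∏ j ∈ s.erase i, (y i - b j)) / ∏ j ∈ s.erase i, (y i - y j) := by
      rw [← Finset.prod_div_distrib]
      refine Finset.prod_congr rfl fun j _ => ?_
      congr 1 <;> simp only [hy, hb] <;> ring
    rw [h4]
    have h5 : y i - b i = -2 * x i := by
      simp only [hy, hb]; ring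
    rw [h5]
    ring
  rw [h3, h2] at h1
  linarith

end Pool.Agent.W933.TZLag
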