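import Mathlib

set_option autoImplicit false

/-!
The sets `{x | parity of the number of the elements of S below x}` for linear orders in which every
element has finitely many predecessors or finitely many successors.
-/

namespace Pool.Agent.W933.FinCof

section
variable {γ : Type} [LinearOrder γ]

/-- parity sets -/
def PS (S : Finset γ) : Set γ := {x | Odd (S.filter (fun s => s ≤ x)).card}

theorem ps_symmDiff (S T : Finset γ) : PS (symmDiff S T) = symmDiff (PS S) (PS T) := by
  ext x
  have h : (symmDiff S T).filter (fun s => s ≤ x) =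
      symmDiff (S.filter (fun s => s ≤ x)) (T.filter (fun s => s ≤ x)) := by
    ext s
    simp only [Finset.mem_filter, Finset.mem_symmDiff]
    tauto
  have h2 : ∀ A B : Finset γ, Odd (symmDiff A B).card ↔ ((Odd A.card ∧ ¬ Odd B.card) ∨ (Odd B.card ∧ ¬ Odd A.card)) := by
    intro A B
    have e1 : (symmDiff A B).card = (A \ B).card + (B \ A).card := by
      rw [symmDiff_def, Finset.sup_eq_union, Finset.card_union_of_disjoint]
      exact disjoint_sdiff_sdiff
    have e2 : A.card = (A \ B).card + (A ∩ B).card := (Finset.card_sdiff_add_card_inter A B).symm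
    have e3 : B.card = (B \ A).card + (B ∩ A).card := (Finset.card_sdiff_add_card_inter B A).symm
    rw [Finset.inter_comm] at e3
    simp only [Nat.odd_iff]
    show _ ↔ (_ ∧ ¬ _) ∨ (_ ∧ ¬ _)
    omega
  show Odd ((symmDiff S T).filter (fun s => s ≤ x)).card ↔ _
  rw [h, h2]
  rfl

theorem ps_singleton (s : γ) : PS {s} = {x | s ≤ x} := by
  ext x
  show Odd ((({s} : Finset γ)).filter (fun s => s ≤ x)).card ↔ s ≤ x
  rw [Finset.filter_singleton]
  by_cases h : s ≤ x
  · simp [h]
  · simp [h]

theorem ps_injective : Function.Injective (PS (γ := γ)) := by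
  intro S T h
  by_contra hne
  have hne' : (symmDiff S T).Nonempty := by
    rw [Finset.nonempty_iff_ne_empty]
    intro h'
    exact hne (symmDiff_eq_bot.1 h')
  obtain ⟨s, hs, hmin⟩ := (symmDiff S T).exists_minimal hne'
  have h1 : PS (symmDiff S T) = ∅ := by
    rw [ps_symmDiff, h, symmDiff_self]
    rfl
  have h2 : s ∈ PS (symmDiff S T) := by
    show Odd _
    have : (symmDiff S T).filter (fun t => t ≤ s) = {s} := by
      ext t
      simp only [Finset.mem_filter, Finset.mem_singleton]
      constructor
      · rintro ⟨ht, hts⟩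
        exact le_antisymm hts (hmin ht hts)
      · rintro rfl
        exact ⟨hs, le_rfl⟩
    rw [this]
    simp
  rw [h1] at h2
  exact h2

/-- finite or cofinite -/
def FC (X : Set γ) : Prop := X.Finite ∨ Xᶜ.Finite

theorem fc_symmDiff {X Y : Set γ} (hX : FC X) (hY : FC Y) : FC (symmDiff X Y) := by
  rcases hX with hX | hX <;> rcases hY with hY | hY
  · left
    exact (hX.union hY).subset (by
      rintro x (⟨h, _⟩ | ⟨h, _⟩)
      · exact Or.inl h
      · exact Or.inr h)
  · right
    exact (hX.union hY).subset (by
      intro x hx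
      rw [Set.mem_compl_iff, Set.mem_symmDiff] at hx
      by_cases h : x ∈ X
      · exact Or.inl h
      · right
        intro hy
        exact hx (Or.inr ⟨hy, h⟩))
  · right
    exact (hX.union hY).subset (by
      intro x hx
      rw [Set.mem_compl_iff, Set.mem_symmDiff] at hx
      by_cases h : x ∈ Y
      · exact Or.inr h
      · left
        intro hy
        exact hx (Or.inl ⟨hy, h⟩))
  · left
    exact (hX.union hY).subset (by
      rintro x (⟨h, h'⟩ | ⟨h, h'⟩)
      · exact Or.inr h'
      · exact Or.inl h')

/-- every element has finitely many predecessors or finitely many successors -/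
def Sided (γ : Type) [LinearOrder γ] : Prop := ∀ s : γ, FC {x | s ≤ x}

/-- every element is the greatest one or has an immediate successor -/
def HasSucc (γ : Type) [LinearOrder γ] : Prop :=
  ∀ s : γ, (∀ x, x ≤ s) ∨ ∃ t, s < t ∧ ∀ x, s < x → t ≤ x

theorem fc_ps (h : Sided γ) (S : Finset γ) : FC (PS S) := by
  classical
  induction S using Finset.induction_on with
  | empty =>
    left
    have : PS (∅ : Finset γ) = ∅ := by
      ext x
      show Odd _ ↔ _
      simp
    rw [this]
    exact Set.finite_empty
  | insert a S ha ih =>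
    have : insert a S = symmDiff {a} S := by
      ext x
      simp only [Finset.mem_insert, Finset.mem_symmDiff, Finset.mem_singleton]
      constructor
      · rintro (rfl | hx)
        · exact Or.inl ⟨rfl, ha⟩
        · exact Or.inr ⟨hx, fun h => ha (h ▸ hx)⟩
      · rintro (⟨rfl, _⟩ | ⟨hx, _⟩)
        · exact Or.inl rfl
        · exact Or.inr hx
    rw [this, ps_symmDiff, ps_singleton]
    exact fc_symmDiff (h a) ih

theorem exists_ps_finite (h : HasSucc γ) (X : Set γ) (hX : X.Finite) : ∃ S, PS S = X := by
  classical
  induction X, hX using Set.Finite.induction_on with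
  | empty =>
    refine ⟨∅, ?_⟩
    ext x
    show Odd _ ↔ _
    simp
  | @insert a X ha hX ih =>
    obtain ⟨S, rfl⟩ := ih
    obtain ⟨T, hT⟩ : ∃ T : Finset γ, PS T = {a} := by
      rcases h a with h1 | ⟨t, h1, h2⟩
      · refine ⟨{a}, ?_⟩
        rw [ps_singleton]
        ext x
        exact ⟨fun h => le_antisymm (h1 x) h, fun h => by rw [Set.mem_singleton_iff.1 h]; exact le_refl a⟩
      · refine ⟨symmDiff {a} {t}, ?_⟩
        rw [ps_symmDiff, ps_singleton, ps_singleton]
        ext x
        rw [Set.mem_symmDiff]
        simp only [Set.mem_setOf_eq, Set.mem_singleton_iff, not_le]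
        constructor
        · rintro (⟨h3, h4⟩ | ⟨h3, h4⟩)
          · rcases h3.lt_or_eq with h5 | h5
            · exact absurd (h2 x h5) (not_le.2 h4)
            · exact h5.symm
          · exact absurd (h1.trans_le h3) (not_lt.2 h4.le)
        · rintro rfl
          exact Or.inl ⟨le_rfl, h1⟩
    refine ⟨symmDiff T S, ?_⟩
    rw [ps_symmDiff, hT]
    ext x
    rw [Set.mem_symmDiff]
    constructor
    · rintro (⟨rfl, _⟩ | ⟨hx, _⟩)
      · exact Set.mem_insert _ _
      · exact Set.mem_insert_of_mem _ hx
    · rintro (rfl | hx)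
      · exact Or.inl ⟨rfl, ha⟩
      · exact Or.inr ⟨hx, fun h => ha (by rw [← Set.mem_singleton_iff.1 h]; exact hx)⟩

/-- the family of the problem -/
def Fam (γ : Type) [LinearOrder γ] : Set (Set γ) :=
  {X : Set γ | ∃ S : Finset γ, ∃ b : Bool,
              X = {x : γ | Xor' (b = true) (Odd (S.filter (fun s => s ≤ x)).card)}}

theorem xor_false (S : Finset γ) : {x : γ | Xor' (false = true) (Odd (S.filter (fun s => s ≤ x)).card)} = PS S := by
  ext x
  show Xor' _ _ ↔ Odd _
  simp [Xor']

theorem xor_true (S : Finset γ) : {x : γ | Xor' (true = true) (Odd (S.filter (fun s => s ≤ x)).card)} = (PS S)ᶜ := by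
  ext x
  show Xor' _ _ ↔ ¬ Odd _
  simp [Xor']

theorem fam_eq (h1 : Sided γ) (h2 : HasSucc γ) : Fam γ = {X | FC X} := by
  ext X
  constructor
  · rintro ⟨S, b, rfl⟩
    rcases b with _ | _
    · rw [xor_false]
      exact fc_ps h1 S
    · rw [xor_true]
      rcases fc_ps h1 S with h | h
      · right
        rwa [compl_compl]
      · left
        exact h
  · rintro (h | h)
    · obtain ⟨S, hS⟩ := exists_ps_finite h2 X h
      exact ⟨S, false, by rw [xor_false, hS]⟩
    · obtain ⟨S, hS⟩ := exists_ps_finite h2 _ h
      exact ⟨S, true, by rw [xor_true, hS, compl_compl]⟩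

end

theorem sided_nat : Sided ℕ := fun s => Or.inr ((Set.finite_lt_nat s).subset fun x hx => by
  simpa using hx)

theorem hasSucc_nat : HasSucc ℕ := fun s => Or.inr ⟨s + 1, Nat.lt_succ_self s, fun _ h => h⟩

/-- finiteness in an algebra isomorphic to the finite-cofinite algebra -/
theorem fin_iff {α : Type} [BooleanAlgebra α] {ψ : α → Set ℕ} (hinj : Function.Injective ψ)
    (hsup : ∀ a b, ψ (a ⊔ b) = ψ a ∪ ψ b) (hr : Set.range ψ = {X | FC X}) (a : α) :
    (ψ a).Finite ↔ {b : α | b ≤ a}.Finite := by
  have hmono : ∀ b c, b ≤ c ↔ ψ b ⊆ ψ c := by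
    intro b c
    rw [← sup_eq_right, ← Set.union_eq_right, ← hsup]
    exact hinj.eq_iff.symm
  constructor
  · intro h
    refine Set.Finite.of_finite_image (f := ψ) (h.finite_subsets.subset ?_) hinj.injOn
    rintro X ⟨b, hb, rfl⟩
    exact (hmono b a).1 hb
  · intro h
    have hs : ∀ n : ℕ, ∃ b, ψ b = {n} := by
      intro n
      have : ({n} : Set ℕ) ∈ Set.range ψ := by
        rw [hr]
        exact Or.inl (Set.finite_singleton n)
      exact this
    choose u hu using hs
    have huinj : Function.Injective u := by
      intro m n hmn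
      have := hu m
      rw [hmn, hu n] at this
      exact (Set.singleton_eq_singleton_iff.1 this).symm
    refine Set.Finite.of_finite_image (f := u) (h.subset ?_) huinj.injOn
    rintro b ⟨n, hn, rfl⟩
    show u n ≤ a
    rw [hmono, hu n]
    exact Set.singleton_subset_iff.2 hn

end Pool.Agent.W933.FinCof
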