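import Mathlib
import Pool.Agent.Helper941.Dim.Base
import Pool.Agent.W933.FinCof

set_option autoImplicit false

/-!
A computable presentation of the algebra of finite and cofinite sets of natural numbers in which
the ideal of the finite elements is not computable.
-/

namespace Pool.Agent.W933.IntAlg

open Nat.Partrec (Code)
open Pool.Agent.Helper941.Zeta Pool.Agent.Helper941.Dim

/-! ### A computable injective enumeration with noncomputable range -/

/-- `s = pair k t` and the program `k` halts on input `0` with bound exactly `t`. -/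
def Ex (s : ℕ) : Bool :=
  ((Code.evaln (s.unpair.2 + 1) (Denumerable.ofNat Code s.unpair.1) 0).isSome) &&
    !((Code.evaln (s.unpair.2) (Denumerable.ofNat Code s.unpair.1) 0).isSome)

/-- the enumeration -/
def f (s : ℕ) : ℕ := bif Ex s then 2 * s.unpair.1 else 2 * s + 1

theorem Ex_comp : Computable Ex := by
  have h1 : Computable fun s : ℕ => (Code.evaln (s.unpair.2 + 1) (Denumerable.ofNat Code s.unpair.1) 0) := by
    have := Code.primrec_evaln.to_comp.comp
      (((Computable.succ.comp (Computable.snd.comp Computable.unpair)).pair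
        ((Computable.ofNat Code).comp (Computable.fst.comp Computable.unpair))).pair (Computable.const 0))
    exact this
  have h2 : Computable fun s : ℕ => (Code.evaln (s.unpair.2) (Denumerable.ofNat Code s.unpair.1) 0) := by
    have := Code.primrec_evaln.to_comp.comp
      (((Computable.snd.comp Computable.unpair).pair
        ((Computable.ofNat Code).comp (Computable.fst.comp Computable.unpair))).pair (Computable.const 0))
    exact this
  have h3 : Computable fun o : Option ℕ => o.isSome := Primrec.option_isSome.to_comp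
  exact Primrec.and.to_comp.comp (h3.comp h1) (Primrec.not.to_comp.comp (h3.comp h2))

theorem f_comp : Computable f := by
  refine Computable.cond Ex_comp ?_ ?_
  · exact (Primrec.nat_mul.comp (Primrec.const 2) (Primrec.fst.comp Primrec.unpair)).to_comp
  · exact (Primrec.succ.comp (Primrec.nat_mul.comp (Primrec.const 2) Primrec.id)).to_comp

theorem evaln_mono_isSome {a b : ℕ} (h : a ≤ b) {c : Code} {n : ℕ}
    (hs : (Code.evaln a c n).isSome = true) : (Code.evaln b c n).isSome = true := by
  obtain ⟨x, hx⟩ := Option.isSome_iff_exists.1 hs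
  exact Option.isSome_iff_exists.2 ⟨x, Code.evaln_mono h hx⟩

theorem Ex_iff {s : ℕ} : Ex s = true ↔
    (Code.evaln (s.unpair.2 + 1) (Denumerable.ofNat Code s.unpair.1) 0).isSome = true ∧
    ¬ (Code.evaln (s.unpair.2) (Denumerable.ofNat Code s.unpair.1) 0).isSome = true := by
  unfold Ex
  rw [Bool.and_eq_true, Bool.not_eq_true', Bool.not_eq_true]

theorem f_inj : Function.Injective f := by
  intro s t h
  unfold f at h
  rcases hs : Ex s with _ | _ <;> rcases ht : Ex t with _ | _ <;> rw [hs, ht] at h <;>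
    simp only [cond_true, cond_false] at h
  · omega
  · omega
  · omega
  · have h1 : s.unpair.1 = t.unpair.1 := by omega
    have h2 : s.unpair.2 = t.unpair.2 := by
      obtain ⟨a1, a2⟩ := Ex_iff.1 hs
      obtain ⟨b1, b2⟩ := Ex_iff.1 ht
      rw [h1] at a1 a2
      rcases lt_trichotomy s.unpair.2 t.unpair.2 with h' | h' | h'
      · exact absurd (evaln_mono_isSome (by omega) a1) b2
      · exact h'
      · exact absurd (evaln_mono_isSome (by omega) b1) a2
    rw [← Nat.pair_unpair s, ← Nat.pair_unpair t, h1, h2]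

/-- the even elements of the range are the halting programs -/
theorem f_range (k : ℕ) : (∃ s, f s = 2 * k) ↔ ((Code.eval (Denumerable.ofNat Code k) 0)).Dom := by
  constructor
  · rintro ⟨s, hs⟩
    unfold f at hs
    rcases h : Ex s with _ | _ <;> rw [h] at hs <;> simp only [cond_true, cond_false] at hs
    · omega
    · have h1 : s.unpair.1 = k := by omega
      obtain ⟨a1, -⟩ := Ex_iff.1 h
      rw [h1] at a1
      obtain ⟨x, hx⟩ := Option.isSome_iff_exists.1 a1
      have := Code.evaln_sound (show x ∈ _ from hx)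
      exact Part.dom_iff_mem.2 ⟨x, this⟩
  · intro h
    obtain ⟨x, hx⟩ := Part.dom_iff_mem.1 h
    obtain ⟨j, hj⟩ := Code.evaln_complete.1 hx
    have hex : ∃ j, (Code.evaln j (Denumerable.ofNat Code k) 0).isSome = true :=
      ⟨j, Option.isSome_iff_exists.2 ⟨x, hj⟩⟩
    classical
    have h1 := Nat.find_spec hex
    have h2 := fun m => Nat.find_min hex (m := m)
    set t := Nat.find hex
    rcases t with _ | t
    · simp [Code.evaln] at h1
    · refine ⟨Nat.pair k t, ?_⟩
      have : Ex (Nat.pair k t) = true := by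
        rw [Ex_iff]
        simp only [Nat.unpair_pair]
        exact ⟨h1, h2 t (by omega)⟩
      unfold f
      rw [this]
      simp

/-- the enumeration with the least value at `0` -/
def g (s : ℕ) : ℕ := if s = 0 then 0 else f (s - 1) + 1

theorem g_comp : Computable g :=
  c_ite (p_eq c_id (c_const 0)) (c_const 0) (c_succ (f_comp.comp (c_sub c_id (c_const 1))))

theorem g_inj : Function.Injective g := by
  intro s t h
  unfold g at h
  by_cases hs : s = 0 <;> by_cases ht : t = 0
  · rw [hs, ht]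
  · rw [if_pos hs, if_neg ht] at h
    omega
  · rw [if_neg hs, if_pos ht] at h
    omega
  · rw [if_neg hs, if_neg ht] at h
    have h' : f (s - 1) = f (t - 1) := by omega
    have := f_inj h'
    omega

/-! ### the order -/

/-- `s` looks true at `t` -/
def A (s t : ℕ) : Prop := ∀ u, s < u → u ≤ t → g s < g u

/-- the order -/
def le (s x : ℕ) : Prop := (s ≤ x ∧ A s x) ∨ (x < s ∧ ¬ A x s)

theorem le_of_le {s x : ℕ} (h : s ≤ x) : le s x ↔ A s x :=
  ⟨fun h' => h'.elim (fun h => h.2) (fun h' => absurd h'.1 (not_lt.2 h)), fun h' => Or.inl ⟨h, h'⟩⟩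

theorem le_of_lt {s x : ℕ} (h : x < s) : le s x ↔ ¬ A x s :=
  ⟨fun h' => h'.elim (fun h' => absurd h (not_lt.2 h'.1)) (fun h' => h'.2), fun h' => Or.inr ⟨h, h'⟩⟩

theorem A_sub {s x y : ℕ} (h : y ≤ x) (hA : A s x) : A s y := fun u h1 h2 => hA u h1 (h2.trans h)

theorem A_trans {a b c : ℕ} (hab : a < b) (h1 : A a b) (h2 : A b c) : A a c := by
  intro u hu huc
  rcases le_or_gt u b with h | h
  · exact h1 u hu h
  · exact (h1 b hab le_rfl).trans (h2 u h huc)

/-- if `a` looks true at `c` and `b` in between does, too -/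
theorem A_mid {a b c : ℕ} (hab : a < b) (hbc : b ≤ c) (h1 : A a c) (u : ℕ) (hu : b < u) (huc : u ≤ c) :
    g a < g u := h1 u (hab.trans hu) huc

theorem le_refl' (a : ℕ) : le a a := Or.inl ⟨le_rfl, fun u h1 h2 => absurd h1 (not_lt.2 h2)⟩

theorem le_total' (a b : ℕ) : le a b ∨ le b a := by
  rcases lt_trichotomy a b with h | h | h
  · by_cases h1 : A a b
    · exact Or.inl ((le_of_le h.le).2 h1)
    · exact Or.inr ((le_of_lt h).2 h1)
  · subst h
    exact Or.inl (le_refl' a)
  · by_cases h1 : A b a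
    · exact Or.inr ((le_of_le h.le).2 h1)
    · exact Or.inl ((le_of_lt h).2 h1)

theorem le_antisymm' (a b : ℕ) (h1 : le a b) (h2 : le b a) : a = b := by
  rcases lt_trichotomy a b with h | h | h
  · rw [le_of_le h.le] at h1
    rw [le_of_lt h] at h2
    exact absurd h1 h2
  · exact h
  · rw [le_of_lt h] at h1
    rw [le_of_le h.le] at h2
    exact absurd h2 h1

theorem le_trans' (a b c : ℕ) (h1 : le a b) (h2 : le b c) : le a c := by
  rcases lt_trichotomy a b with hab | hab | hab
  · rw [le_of_le hab.le] at h1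
    rcases lt_trichotomy b c with hbc | hbc | hbc
    · rw [le_of_le hbc.le] at h2
      exact (le_of_le (hab.trans hbc).le).2 (A_trans hab h1 h2)
    · subst hbc
      exact (le_of_le hab.le).2 h1
    · rw [le_of_lt hbc] at h2
      rcases lt_trichotomy a c with hac | hac | hac
      · exact (le_of_le hac.le).2 (A_sub hbc.le h1)
      · subst hac
        exact le_refl' a
      · rw [le_of_lt hac]
        intro h3
        exact h2 fun u hu hub => by
          rcases le_or_gt u a with h | h
          · exact h3 u hu h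
          · exact (h3 a hac le_rfl).trans (h1 u h hub)
  · subst hab
    exact h2
  · rw [le_of_lt hab] at h1
    rcases lt_trichotomy b c with hbc | hbc | hbc
    · rw [le_of_le hbc.le] at h2
      rcases lt_trichotomy a c with hac | hac | hac
      · exact absurd (A_sub hac.le h2) h1
      · subst hac
        exact le_refl' a
      · rw [le_of_lt hac]
        intro h3
        exact h1 (A_trans hbc h2 h3)
    · subst hbc
      exact (le_of_lt hab).2 h1
    · rw [le_of_lt hbc] at h2
      rw [le_of_lt (hbc.trans hab)]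
      intro h3
      exact h2 (A_sub hab.le h3)

/-- a synonym of `ℕ` carrying the order `le` -/
def LN : Type := ℕ

noncomputable instance : LinearOrder LN where
  le a b := le a b
  le_refl := le_refl'
  le_trans := le_trans'
  le_antisymm := le_antisymm'
  le_total := le_total'
  toDecidableLE := fun _ _ => Classical.dec _

theorem zero_least (x : ℕ) : le 0 x := by
  refine Or.inl ⟨Nat.zero_le x, fun u h _ => ?_⟩
  unfold g
  rw [if_pos rfl, if_neg (by omega)]
  omega

/-- true stages -/
def Tr (s : ℕ) : Prop := ∀ u, s < u → g s < g u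

theorem tr_le {s x : ℕ} (h : Tr s) (hx : s ≤ x) : le s x := Or.inl ⟨hx, fun u hu _ => h u hu⟩

theorem not_tr {s : ℕ} (h : ¬ Tr s) : ∃ u, ∀ x, u ≤ x → ¬ le s x := by
  unfold Tr at h
  push Not at h
  obtain ⟨u, h1, h2⟩ := h
  refine ⟨u, fun x hx h3 => ?_⟩
  rw [le_of_le (h1.le.trans hx)] at h3
  exact absurd (h3 u h1 hx) (not_lt.2 h2)

theorem exists_tr (N : ℕ) : ∃ s, N ≤ s ∧ Tr s := by
  have hne : (g '' {s | N ≤ s}).Nonempty := ⟨g N, N, le_refl N, rfl⟩
  obtain ⟨s, hs, hm⟩ := Nat.sInf_mem hne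
  refine ⟨s, hs, fun u hu => ?_⟩
  have h1 : sInf (g '' {s | N ≤ s}) ≤ g u := Nat.sInf_le ⟨u, (show N ≤ u from le_trans hs hu.le), rfl⟩
  rw [← hm] at h1
  exact lt_of_le_of_ne h1 fun h => by
    have := g_inj h
    omega

open Pool.Agent.W933.FinCof

theorem sided : Sided LN := by
  intro s
  by_cases h : Tr s
  · right
    refine (Set.finite_lt_nat s).subset ?_
    intro x hx
    by_contra h1
    exact hx (tr_le h (not_lt.1 h1))
  · left
    obtain ⟨u, hu⟩ := not_tr h
    refine (Set.finite_lt_nat u).subset ?_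
    intro x hx
    by_contra h1
    exact hu x (not_lt.1 h1) hx

theorem exists_min_finite {P : Set LN} {y : LN} (hy : y ∈ P)
    (hf : {z | z ∈ P ∧ z ≤ y}.Finite) : ∃ t ∈ P, ∀ x ∈ P, t ≤ x := by
  obtain ⟨t, ht⟩ := hf.exists_minimal ⟨y, hy, le_rfl⟩
  refine ⟨t, ht.prop.1, fun x hx => ?_⟩
  rcases le_total x t with h | h
  · exact ht.le_of_le ⟨hx, h.trans ht.prop.2⟩ h
  · exact h

theorem hasSucc_aux (s : ℕ) : (∀ x, le x s) ∨ ∃ t, (le s t ∧ s ≠ t) ∧ ∀ x, (le s x ∧ s ≠ x) → le t x := by
  have conv : ∀ a b : ℕ, (@LT.lt LN _ a b) ↔ (le a b ∧ a ≠ b) := fun a b =>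
    ⟨fun h => ⟨_root_.le_of_lt (α := LN) h, fun e => lt_irrefl (α := LN) b (by rw [e] at h; exact h)⟩,
      fun h => lt_of_le_of_ne (α := LN) h.1 h.2⟩
  by_cases h : Tr s
  · right
    obtain ⟨y, hy1, hy2⟩ := exists_tr (s + 1)
    have h1 : le s y := tr_le h (by omega)
    have h2 : s ≠ y := by omega
    obtain ⟨t, ht1, ht2⟩ := exists_min_finite (P := {z : LN | (@LT.lt LN _ s z)})
        (y := y) ((conv s y).2 ⟨h1, h2⟩) (by
      refine (Set.finite_le_nat y).subset ?_
      rintro x ⟨-, hx⟩
      show (x : ℕ) ≤ y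
      by_contra h4
      have h5 : y < x := not_le.1 h4
      have h6 : le y x := tr_le hy2 h5.le
      have h7 : x = y := le_antisymm' x y hx h6
      omega)
    exact ⟨t, (conv s t).1 ht1, fun x hx => ht2 x ((conv s x).2 hx)⟩
  · by_cases h1 : ∀ x, le x s
    · exact Or.inl h1
    · right
      push Not at h1
      obtain ⟨y, hy⟩ := h1
      have hy' : le s y := (le_total' s y).resolve_right hy
      have hne : s ≠ y := fun h => hy (by rw [h]; exact le_refl' y)
      obtain ⟨u, hu⟩ := not_tr h
      obtain ⟨t, ht1, ht2⟩ := exists_min_finite (P := {z : LN | (@LT.lt LN _ s z)})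
          (y := y) ((conv s y).2 ⟨hy', hne⟩) (by
        refine (Set.finite_lt_nat u).subset ?_
        rintro x ⟨hx, -⟩
        show (x : ℕ) < u
        by_contra h4
        exact hu x (not_lt.1 h4) ((conv s x).1 hx).1)
      exact ⟨t, (conv s t).1 ht1, fun x hx => ht2 x ((conv s x).2 hx)⟩

theorem hasSucc : HasSucc LN := by
  intro s
  have conv : ∀ a b : ℕ, (@LT.lt LN _ a b) ↔ (le a b ∧ a ≠ b) := fun a b =>
    ⟨fun h => ⟨_root_.le_of_lt (α := LN) h, fun e => lt_irrefl (α := LN) b (by rw [e] at h; exact h)⟩,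
      fun h => lt_of_le_of_ne (α := LN) h.1 h.2⟩
  rcases hasSucc_aux s with h | ⟨t, h1, h2⟩
  · exact Or.inl h
  · exact Or.inr ⟨t, (conv s t).2 h1, fun x hx => h2 x ((conv s x).1 hx)⟩

/-! ### computability -/

theorem p_A : ComputablePred fun p : ℕ × ℕ => A p.1 p.2 := by
  have : ComputablePred fun p : ℕ × ℕ => ∀ u < p.2 + 1, p.1 < u → g p.1 < g u :=
    p_ball (c_succ (c_snd c_id)) (p_imp (p_lt (c_fst (c_fst c_id)) (c_snd c_id))
      (p_lt (g_comp.comp (c_fst (c_fst c_id))) (g_comp.comp (c_snd c_id))))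
  exact this.of_eq fun p => ⟨fun h u h1 h2 => h u (by omega) h1, fun h u h1 h2 => h u h2 (by omega)⟩

theorem p_le' : ComputablePred fun p : ℕ × ℕ => le p.1 p.2 := by
  refine p_or (p_and (p_le (c_fst c_id) (c_snd c_id)) p_A)
    (p_and (p_lt (c_snd c_id) (c_fst c_id)) (p_not ?_))
  exact Pool.Agent.Helper941.IsoProb.computablePred_comp (P := fun q : ℕ × ℕ => A q.1 q.2) p_A
    (c_pair (c_snd c_id) (c_fst c_id))

open Classical in
/-- membership in the set coded by `n` -/
noncomputable def mem (n x : ℕ) : Bool :=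
  Nat.rec false (fun s b => (b ^^ (n.testBit s && decide (le s x)))) n

open Classical in
theorem c_mem : Computable fun p : ℕ × ℕ => mem p.1 p.2 := by
  refine Computable.nat_rec (f := fun p : ℕ × ℕ => p.1) (g := fun _ => false)
    (h := fun (p : ℕ × ℕ) (q : ℕ × Bool) => (q.2 ^^ (p.1.testBit q.1 && decide (le q.1 p.2))))
    (c_fst c_id) (Computable.const _) ?_
  refine c_bxor (c_snd (c_snd c_id)) ?_
  refine Primrec.and.to_comp.comp (c_testBit (c_fst (c_fst c_id)) (c_fst (c_snd c_id))) ?_
  exact c_decide (Pool.Agent.Helper941.IsoProb.computablePred_comp (P := fun q : ℕ × ℕ => le q.1 q.2) p_le'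
    (c_pair (c_fst (c_snd c_id)) (c_snd (c_fst c_id))))

/-- the identity -/
def tl : ℕ ≃ LN := Equiv.refl ℕ

theorem tl_le {a b : ℕ} : tl a ≤ tl b ↔ le a b := Iff.rfl

/-- the set of the positions of the nonzero binary digits -/
def bits (n : ℕ) : Finset LN := (Finset.equivBitIndices n : Finset ℕ).map tl.toEmbedding

theorem mem_bits {n s : ℕ} : tl s ∈ bits n ↔ n.testBit s = true := by
  unfold bits
  rw [Finset.mem_map_equiv, Equiv.symm_apply_apply, Finset.equivBitIndices_apply,
    List.mem_toFinset, Nat.mem_bitIndices]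

theorem bits_inj {m n : ℕ} (h : bits m = bits n) : m = n :=
  Finset.equivBitIndices.injective (Finset.map_injective _ h)

theorem bits_surj (S : Finset LN) : ∃ n, bits n = S := by
  obtain ⟨n, hn⟩ := Finset.equivBitIndices.surjective (S.map tl.symm.toEmbedding)
  refine ⟨n, ?_⟩
  unfold bits
  rw [hn, Finset.map_map]
  ext x
  simp

/-- the set coded by `n` -/
def X (n : ℕ) : Set ℕ := {x | tl x ∈ PS (bits n)}

open Classical in
theorem mem_iff (n x : ℕ) : x ∈ X n ↔ mem n x = true := by
  have key : ∀ k, (Nat.rec false (fun s b => (b ^^ (n.testBit s && decide (le s x)))) k : Bool) = true ↔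
      Odd ((Finset.range k).filter fun s => n.testBit s = true ∧ le s x).card := by
    intro k
    induction k with
    | zero => simp
    | succ k ih =>
      show (_ ^^ _) = true ↔ _
      rw [Finset.range_add_one, Finset.filter_insert]
      by_cases h : n.testBit k = true ∧ le k x
      · rw [if_pos h, Finset.card_insert_of_notMem (by simp)]
        have h1 : (n.testBit k && decide (le k x)) = true := by simp [h]
        rw [h1, Bool.xor_true, Nat.odd_add_one, ← ih, Bool.not_eq_true', Bool.not_eq_true]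
      · rw [if_neg h]
        have h1 : (n.testBit k && decide (le k x)) = false := by
          rw [Bool.eq_false_iff]
          simpa using h
        rw [h1, Bool.xor_false, ih]
  unfold mem
  rw [key n]
  show Odd _ ↔ _
  have : ((bits n).filter (fun s => s ≤ tl x)).card =
      ((Finset.range n).filter fun s => n.testBit s = true ∧ le s x).card := by
    have : (bits n).filter (fun s => s ≤ tl x) =
      ((Finset.range n).filter fun s => n.testBit s = true ∧ le s x).map tl.toEmbedding := by
      ext s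
      obtain ⟨s, rfl⟩ := tl.surjective s
      rw [Finset.mem_filter, mem_bits, Finset.mem_map_equiv, Equiv.symm_apply_apply,
        Finset.mem_filter, Finset.mem_range]
      exact ⟨fun h => ⟨testBit_lt h.1, h⟩, fun h => h.2⟩
    rw [this, Finset.card_map]
  rw [this]

theorem X_inj {m n : ℕ} (h : X m = X n) : m = n := by
  apply bits_inj
  apply ps_injective
  ext s
  obtain ⟨s, rfl⟩ := tl.surjective s
  show s ∈ X m ↔ s ∈ X n
  rw [h]

theorem fc_X (n : ℕ) : FC (X n) := by
  rcases fc_ps sided (bits n) with h | h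
  · left
    exact h.preimage (f := tl) tl.injective.injOn
  · right
    exact h.preimage (f := tl) tl.injective.injOn

theorem ps_univ : PS {tl 0} = Set.univ := by
  rw [ps_singleton]
  ext x
  obtain ⟨x, rfl⟩ := tl.surjective x
  exact ⟨fun _ => trivial, fun _ => zero_least x⟩

theorem X_surj {Y : Set ℕ} (h : FC Y) : ∃ n, X n = Y := by
  have h' : FC (tl.symm ⁻¹' Y) := by
    rcases h with h | h
    · left
      exact h.preimage tl.symm.injective.injOn
    · right
      exact h.preimage (f := tl.symm) tl.symm.injective.injOn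
  rcases h' with h | h
  · obtain ⟨S, hS⟩ := exists_ps_finite hasSucc _ h
    obtain ⟨n, rfl⟩ := bits_surj S
    refine ⟨n, ?_⟩
    ext x
    show tl x ∈ PS (bits n) ↔ _
    rw [hS]
    rfl
  · obtain ⟨S, hS⟩ := exists_ps_finite hasSucc _ h
    obtain ⟨n, hn⟩ := bits_surj (symmDiff {tl 0} S)
    refine ⟨n, ?_⟩
    ext x
    show tl x ∈ PS (bits n) ↔ _
    rw [hn, ps_symmDiff, ps_univ, hS, Set.mem_symmDiff]
    simp only [Set.mem_univ, Set.mem_compl_iff, Set.mem_preimage, Equiv.symm_apply_apply]
    tauto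

/-- two points which are not separated by the digits -/
theorem mem_least {n x y : ℕ} (h : ∀ s, n.testBit s = true → (le s x ↔ le s y)) :
    x ∈ X n ↔ y ∈ X n := by
  show Odd _ ↔ Odd _
  have : (bits n).filter (fun s => s ≤ tl x) = (bits n).filter (fun s => s ≤ tl y) := by
    ext s
    obtain ⟨s, rfl⟩ := tl.surjective s
    rw [Finset.mem_filter, Finset.mem_filter]
    exact ⟨fun h1 => ⟨h1.1, (h s (mem_bits.1 h1.1)).1 h1.2⟩,
      fun h1 => ⟨h1.1, (h s (mem_bits.1 h1.1)).2 h1.2⟩⟩
  rw [this]

/-- every point is equivalent to a small one -/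
theorem exists_small (N x : ℕ) : ∃ y, y ≤ N ∧ ∀ n ≤ N, (x ∈ X n ↔ y ∈ X n) := by
  classical
  have hf : {s : LN | tl.symm s ≤ N ∧ s ≤ tl x}.Finite :=
    ((Set.finite_le_nat N).preimage (f := tl.symm) tl.symm.injective.injOn).subset fun s hs => hs.1
  obtain ⟨y, hy⟩ := hf.exists_maximal ⟨tl 0, by rw [Equiv.symm_apply_apply]; exact Nat.zero_le N,
    zero_least x⟩
  obtain ⟨y, rfl⟩ := tl.surjective y
  have hp := hy.prop
  rw [Set.mem_ofPred_eq, Equiv.symm_apply_apply] at hp
  refine ⟨y, hp.1, fun n hn => mem_least fun s hs => ?_⟩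
  have hsN : s ≤ N := (testBit_lt hs).le.trans hn
  constructor
  · intro h1
    rcases le_total' s y with h2 | h2
    · exact h2
    · exact hy.le_of_ge (y := tl s) ⟨by rw [Equiv.symm_apply_apply]; exact hsN, h1⟩ h2
  · intro h1
    exact le_trans' _ _ _ h1 hp.2

/-- a set equality can be decided on the small points -/
theorem eq_small {N : ℕ} {P Q : ℕ → Prop} (hP : ∀ x y, (∀ n ≤ N, (x ∈ X n ↔ y ∈ X n)) → (P x ↔ P y))
    (hQ : ∀ x y, (∀ n ≤ N, (x ∈ X n ↔ y ∈ X n)) → (Q x ↔ Q y)) :
    (∀ x < N + 1, P x ↔ Q x) ↔ ∀ x, P x ↔ Q x := by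
  refine ⟨fun h x => ?_, fun h x _ => h x⟩
  obtain ⟨y, h1, h2⟩ := exists_small N x
  rw [hP x y h2, hQ x y h2]
  exact h y (by omega)

/-! ### the algebra -/

/-- the algebra of the finite and the cofinite sets -/
def B : BooleanSubalgebra (Set ℕ) where
  carrier := {Y | FC Y}
  supClosed' := by
    rintro Y hY Z hZ
    show FC (Y ∪ Z)
    rcases hY with hY | hY <;> rcases hZ with hZ | hZ
    · exact Or.inl (hY.union hZ)
    · exact Or.inr (hZ.subset (Set.compl_subset_compl.2 Set.subset_union_right))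
    · exact Or.inr (hY.subset (Set.compl_subset_compl.2 Set.subset_union_left))
    · exact Or.inr (hY.subset (Set.compl_subset_compl.2 Set.subset_union_left))
  infClosed' := by
    rintro Y hY Z hZ
    show FC (Y ∩ Z)
    rcases hY with hY | hY <;> rcases hZ with hZ | hZ
    · exact Or.inl (hY.subset Set.inter_subset_left)
    · exact Or.inl (hY.subset Set.inter_subset_left)
    · exact Or.inl (hZ.subset Set.inter_subset_right)
    · exact Or.inr (by rw [Set.compl_inter]; exact hY.union hZ)
  compl_mem' := by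
    rintro Y (hY | hY)
    · exact Or.inr (by rwa [compl_compl])
    · exact Or.inl hY
  bot_mem' := Or.inl Set.finite_empty

theorem mem_B {Y : Set ℕ} : Y ∈ B ↔ FC Y := Iff.rfl

/-- the presentation -/
noncomputable def e : ℕ ≃ B :=
  Equiv.ofBijective (fun n => (⟨X n, fc_X n⟩ : B)) ⟨fun _ _ h => X_inj (Subtype.ext_iff.1 h),
    fun Y => by
      obtain ⟨n, hn⟩ := X_surj Y.2
      exact ⟨n, Subtype.ext hn⟩⟩

theorem e_coe (n : ℕ) : ((e n : B) : Set ℕ) = X n := rfl

theorem p_mem {α : Type} [Primcodable α] {f g : α → ℕ} (hf : Computable f) (hg : Computable g) :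
    ComputablePred fun a => g a ∈ X (f a) :=
  (p_of_bool (c_mem.comp (c_pair hf hg))).of_eq fun a => (mem_iff (f a) (g a)).symm

theorem e_symm_eq {Y : B} {n : ℕ} : e.symm Y = n ↔ X n = (Y : Set ℕ) := by
  rw [Equiv.symm_apply_eq, ← e_coe]
  exact ⟨fun h => by rw [h], fun h => (Subtype.ext h).symm⟩

/-- a computable function from its graph -/
theorem comp_of_graph {α : Type} [Primcodable α] (F : α → B) {N : α → ℕ → ℕ}
    (hN : Computable fun p : α × ℕ => N p.1 p.2)
    {P : α → ℕ → Prop} (hP : ComputablePred fun p : α × ℕ => P p.1 p.2)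
    (hF : ∀ a x, x ∈ (F a : Set ℕ) ↔ P a x)
    (hn : ∀ a n, n ≤ N a n)
    (hinv : ∀ a n x y, (∀ m ≤ N a n, (x ∈ X m ↔ y ∈ X m)) → (P a x ↔ P a y)) :
    Computable fun a => e.symm (F a) := by
  have h1 : ComputablePred fun p : α × ℕ => ∀ x < N p.1 p.2 + 1, (x ∈ X p.2 ↔ P p.1 x) := by
    refine p_ball (c_succ hN) (p_iff ?_ ?_)
    · exact p_mem (c_snd (c_fst c_id)) (c_snd c_id)
    · exact Pool.Agent.Helper941.IsoProb.computablePred_comp (P := fun q : α × ℕ => P q.1 q.2) hP
        (c_pair (c_fst (c_fst c_id)) (c_snd c_id))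
  have h2 : ∀ a n, (∀ x < N a n + 1, (x ∈ X n ↔ P a x)) ↔ e.symm (F a) = n := by
    intro a n
    rw [e_symm_eq, Set.ext_iff, eq_small (fun x y h => h n (hn a n)) (hinv a n)]
    exact forall_congr' fun x => by rw [hF]
  have h3 := c_least (P := fun a n => ∀ x < N a n + 1, (x ∈ X n ↔ P a x)) h1 fun a =>
    ⟨e.symm (F a), (h2 a _).2 rfl⟩
  refine h3.of_eq fun a => ?_
  have : {n | ∀ x < N a n + 1, (x ∈ X n ↔ P a x)} = {e.symm (F a)} := by
    ext n
    rw [Set.mem_singleton_iff]
    exact (h2 a n).trans eq_comm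
  rw [this, csInf_singleton]

theorem sup_comp : Computable₂ fun m n : ℕ => e.symm (e m ⊔ e n) := by
  refine comp_of_graph (fun p : ℕ × ℕ => e p.1 ⊔ e p.2) (N := fun p n => p.1 + p.2 + n)
    (c_add (c_add (c_fst (c_fst c_id)) (c_snd (c_fst c_id))) (c_snd c_id))
    (P := fun p x => x ∈ X p.1 ∨ x ∈ X p.2) ?_ ?_ ?_ ?_
  · refine p_or ?_ ?_
    · exact p_mem (c_fst (c_fst c_id)) (c_snd c_id)
    · exact p_mem (c_snd (c_fst c_id)) (c_snd c_id)
  · intro a x
    exact Iff.rfl
  · intro a n
    omega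
  · intro a n x y h
    rw [h a.1 (by omega), h a.2 (by omega)]

theorem inf_comp : Computable₂ fun m n : ℕ => e.symm (e m ⊓ e n) := by
  refine comp_of_graph (fun p : ℕ × ℕ => e p.1 ⊓ e p.2) (N := fun p n => p.1 + p.2 + n)
    (c_add (c_add (c_fst (c_fst c_id)) (c_snd (c_fst c_id))) (c_snd c_id))
    (P := fun p x => x ∈ X p.1 ∧ x ∈ X p.2) ?_ ?_ ?_ ?_
  · refine p_and ?_ ?_
    · exact p_mem (c_fst (c_fst c_id)) (c_snd c_id)
    · exact p_mem (c_snd (c_fst c_id)) (c_snd c_id)
  · intro a x
    exact Iff.rfl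
  · intro a n
    omega
  · intro a n x y h
    rw [h a.1 (by omega), h a.2 (by omega)]

theorem compl_comp : Computable fun n : ℕ => e.symm (e n)ᶜ := by
  refine comp_of_graph (fun p : ℕ => (e p)ᶜ) (N := fun p n => p + n)
    (c_add (c_fst c_id) (c_snd c_id))
    (P := fun p x => ¬ x ∈ X p) ?_ ?_ ?_ ?_
  · refine p_not ?_
    exact p_mem (c_fst c_id) (c_snd c_id)
  · intro a x
    exact Iff.rfl
  · intro a n
    omega
  · intro a n x y h
    rw [h a (by omega)]

/-! ### the cofinite elements are not computable -/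

theorem X_two_pow (s : ℕ) : X (2 ^ s) = {x | le s x} := by
  have : bits (2 ^ s) = {tl s} := by
    ext t
    obtain ⟨t, rfl⟩ := tl.surjective t
    rw [mem_bits, Finset.mem_singleton, Nat.testBit_two_pow, decide_eq_true_eq]
    exact ⟨fun h => by rw [h], fun h => (tl.injective h).symm⟩
  ext x
  show tl x ∈ PS (bits (2 ^ s)) ↔ _
  rw [this, ps_singleton]
  rfl

theorem tr_iff_infinite (s : ℕ) : Tr s ↔ ¬ (X (2 ^ s)).Finite := by
  rw [X_two_pow]
  constructor
  · intro h hf
    obtain ⟨N, hN⟩ := hf.bddAbove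
    have h1 : max s N + 1 ∈ {x | le s x} := tr_le h (by omega)
    have := hN h1
    omega
  · intro h
    by_contra h1
    obtain ⟨u, hu⟩ := not_tr h1
    exact h ((Set.finite_lt_nat u).subset fun x hx => by
      by_contra h2
      exact hu x (not_lt.1 h2) hx)

theorem tr_not_computable : ¬ ComputablePred Tr := by
  intro h
  -- the halting problem would be computable
  have h1 : ComputablePred fun p : ℕ × ℕ => Tr p.2 ∧ 2 * p.1 + 1 < g p.2 := by
    refine p_and (Pool.Agent.Helper941.IsoProb.computablePred_comp (P := Tr) h (c_snd c_id)) ?_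
    exact p_lt (c_succ (c_mul (c_const 2) (c_fst c_id))) (g_comp.comp (c_snd c_id))
  have h2 : ∀ k, ∃ s, Tr s ∧ 2 * k + 1 < g s := by
    intro k
    have hfin : {s | g s ≤ 2 * k + 1}.Finite :=
      (Set.finite_le_nat (2 * k + 1)).preimage g_inj.injOn
    obtain ⟨N, hN⟩ := hfin.bddAbove
    obtain ⟨s, hs1, hs2⟩ := exists_tr (N + 1)
    refine ⟨s, hs2, ?_⟩
    by_contra h3
    have := hN (show s ∈ {s | g s ≤ 2 * k + 1} from not_lt.1 h3)
    omega
  have h3 := c_least (P := fun k s => Tr s ∧ 2 * k + 1 < g s) h1 h2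
  have h4 : ComputablePred fun k : ℕ => ∃ u < sInf {s | Tr s ∧ 2 * k + 1 < g s}, g u = 2 * k + 1 :=
    p_bex h3 (p_eq (g_comp.comp (c_snd c_id)) (c_succ (c_mul (c_const 2) (c_fst c_id))))
  have h5 : ComputablePred fun k : ℕ => (Code.eval (Denumerable.ofNat Code k) 0).Dom := by
    refine h4.of_eq fun k => ?_
    rw [← f_range]
    obtain ⟨hs1, hs2⟩ := Nat.sInf_mem (s := {s | Tr s ∧ 2 * k + 1 < g s}) (h2 k)
    set s := sInf {s | Tr s ∧ 2 * k + 1 < g s}
    constructor
    · rintro ⟨u, -, hu⟩
      unfold g at hu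
      split_ifs at hu with h0
      exact ⟨u - 1, by omega⟩
    · rintro ⟨u, hu⟩
      have hg : g (u + 1) = 2 * k + 1 := by
        unfold g
        rw [if_neg (by omega), Nat.add_sub_cancel, hu]
      refine ⟨u + 1, ?_, hg⟩
      by_contra h7
      rcases Nat.lt_or_eq_of_le (not_lt.1 h7) with h8 | h8
      · have := hs1 _ h8
        omega
      · rw [← h8] at hg
        omega
  have h6 : ComputablePred fun c : Code => (Code.eval c 0).Dom := by
    have := Pool.Agent.Helper941.IsoProb.computablePred_comp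
      (P := fun k : ℕ => (Code.eval (Denumerable.ofNat Code k) 0).Dom) h5
      (Computable.encode (α := Code))
    refine this.of_eq fun c => ?_
    rw [Denumerable.ofNat_encode]
  exact ComputablePred.halting_problem 0 h6

/-- the answer of a fixed computable function on lists of endpoints -/
theorem infinite_iff (l' : ℕ ≃ ℕ) (L : List ℕ) (b : Bool) :
    ¬ {x : ℕ | Xor (b = true) (Odd (L.filter (fun s => decide (l' s ≤ x))).length)}.Finite ↔
      (b = true ↔ ¬ L.length % 2 = 1) := by
  obtain ⟨N, hN⟩ : ∃ N, ∀ s ∈ L, l' s ≤ N := by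
    induction L with
    | nil => exact ⟨0, by simp⟩
    | cons a L ih =>
      obtain ⟨N, hN⟩ := ih
      refine ⟨max N (l' a), fun s hs => ?_⟩
      rcases List.mem_cons.1 hs with rfl | hs
      · exact le_max_right _ _
      · exact (hN s hs).trans (le_max_left _ _)
  have h1 : ∀ x, N ≤ x → L.filter (fun s => decide (l' s ≤ x)) = L := by
    intro x hx
    rw [List.filter_eq_self]
    intro s hs
    exact decide_eq_true ((hN s hs).trans hx)
  have h2 : ∀ x, N ≤ x → (x ∈ {x : ℕ | Xor (b = true)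
      (Odd (L.filter (fun s => decide (l' s ≤ x))).length)} ↔ (b = true ↔ ¬ L.length % 2 = 1)) := by
    intro x hx
    rw [Set.mem_ofPred_eq, h1 x hx, Nat.odd_iff]
    show (_ ∧ ¬ _) ∨ (_ ∧ ¬ _) ↔ _
    tauto
  constructor
  · intro h
    by_contra h3
    refine h ((Set.finite_lt_nat N).subset fun x hx => ?_)
    by_contra h4
    exact h3 ((h2 x (not_lt.1 h4)).1 hx)
  · intro h hf
    obtain ⟨M, hM⟩ := hf.bddAbove
    have h3 := hM ((h2 (max M N + 1) (by omega)).2 h)
    omega

/-- **Main theorem.** -/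
theorem main : ¬ ∃ l' : ℕ ≃ ℕ, ComputablePred (fun p : ℕ × ℕ => l' p.1 ≤ l' p.2) ∧
          ∃ ψ : B → Set ℕ, Function.Injective ψ ∧
            (∀ a b, ψ (a ⊔ b) = ψ a ∪ ψ b) ∧
            (∀ a, ψ aᶜ = (ψ a)ᶜ) ∧
            Set.range ψ = Fam ℕ ∧
            ∃ c : ℕ → List ℕ × Bool, Computable c ∧
              ∀ n : ℕ, ψ (e n) = {x : ℕ | Xor ((c n).2 = true)
                (Odd ((c n).1.filter (fun s => decide (l' s ≤ x))).length)} := by
  rintro ⟨l', -, ψ, h1, h2, -, h4, c, hc, h5⟩
  rw [fam_eq sided_nat hasSucc_nat] at h4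
  apply tr_not_computable
  have hcoe : Set.range (fun a : B => (a : Set ℕ)) = {X | FC X} := by
    ext Y
    constructor
    · rintro ⟨a, rfl⟩
      exact a.2
    · intro h
      exact ⟨⟨Y, h⟩, rfl⟩
  have h6 : ComputablePred fun s : ℕ => ((c (2 ^ s)).2 = true ↔ ¬ (c (2 ^ s)).1.length % 2 = 1) := by
    have hc' : Computable fun s : ℕ => c (2 ^ s) := hc.comp (c_pow c_id)
    refine p_iff (p_of_bool (c_snd hc')) (p_not (p_eq (c_mod2 ?_) (c_const 1)))
    exact Computable.list_length.comp (c_fst hc')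
  refine h6.of_eq fun s => ?_
  rw [← infinite_iff l', ← h5, tr_iff_infinite, fin_iff h1 h2 h4, ← e_coe]
  exact (fin_iff (ψ := fun a : B => (a : Set ℕ)) Subtype.coe_injective (fun _ _ => rfl) hcoe _).not.symm

end Pool.Agent.W933.IntAlg

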