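import Pool.Agent.W559.Et.Stm3
import Pool.Agent.W762.ET.Tame

/-!
# Project ET: smoothness of the algebra of the first level
-/

set_option autoImplicit false

universe u

namespace Pool.Agent.W933.ETRW

open Pool.Agent.W559.Mg Pool.Agent.W559.Et Finset

section eig

variable {k K : Type u} [Field k] [Field K] [Algebra k K] {h : K →ₐ[k] K} {M : ℕ} {ω : k}

/-- the eigencomponents -/
noncomputable def eg (h : K →ₐ[k] K) (M : ℕ) (ω : k) (c : ℕ) (a : K) : K :=
  (M : k)⁻¹ • ∑ j ∈ range M, algebraMap k K ((ω⁻¹ ^ c) ^ j) * h^[j] a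

theorem eg_mem {B : Subalgebra k K} (hB : ∀ x ∈ B, h x ∈ B) {a : K} (ha : a ∈ B) (c : ℕ) :
    eg h M ω c a ∈ B := by
  have h1 : ∀ j : ℕ, h^[j] a ∈ B := by
    intro j
    induction j with
    | zero => exact ha
    | succ j ih => rw [Function.iterate_succ_apply']; exact hB _ ih
  exact B.smul_mem (B.sum_mem fun j _ => B.mul_mem (B.algebraMap_mem _) (h1 j)) _

theorem eg_h (hω : IsPrimitiveRoot ω M) (hM : 0 < M) {a : K} (ha : h^[M] a = a) (c : ℕ) :
    h (eg h M ω c a) = algebraMap k K (ω ^ c) * eg h M ω c a := by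
  have hω0 : ω ≠ 0 := hω.ne_zero hM.ne'
  unfold eg
  rw [map_smul, map_sum, mul_smul_comm, Finset.mul_sum]
  congr 1
  set f : ℕ → K := fun j => algebraMap k K (ω ^ c) * (algebraMap k K ((ω⁻¹ ^ c) ^ j) * h^[j] a)
    with hf
  have h1 : ∀ j ∈ range M, h (algebraMap k K ((ω⁻¹ ^ c) ^ j) * h^[j] a) = f (j + 1) := by
    intro j _
    rw [hf, map_mul, AlgHom.commutes, ← Function.iterate_succ_apply' (⇑h) j a]
    change _ = algebraMap k K (ω ^ c) * (algebraMap k K ((ω⁻¹ ^ c) ^ (j + 1)) * h^[j + 1] a)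
    rw [← mul_assoc, ← map_mul]
    congr 2
    rw [pow_succ, mul_comm, mul_assoc, ← mul_pow, inv_mul_cancel₀ hω0, one_pow, mul_one]
  rw [Finset.sum_congr rfl h1]
  have h2 : ∑ j ∈ range M, f (j + 1) + f 0 = ∑ j ∈ range M, f j + f M := by
    rw [← Finset.sum_range_succ', Finset.sum_range_succ]
  have h3 : f M = f 0 := by
    rw [hf]
    change algebraMap k K (ω ^ c) * (algebraMap k K ((ω⁻¹ ^ c) ^ M) * h^[M] a) =
      algebraMap k K (ω ^ c) * (algebraMap k K ((ω⁻¹ ^ c) ^ 0) * h^[0] a)
    have h4 : (ω⁻¹ ^ c) ^ M = 1 := by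
      rw [← pow_mul, mul_comm, pow_mul, inv_pow, hω.pow_eq_one, inv_one, one_pow]
    rw [ha, h4, pow_zero]
    rfl
  rw [h3] at h2
  exact add_right_cancel h2

theorem eg_sum (hω : IsPrimitiveRoot ω M) (hM : 0 < M) (hMk : (M : k) ≠ 0) (a : K) :
    ∑ c ∈ range M, eg h M ω c a = a := by
  have hω0 : ω ≠ 0 := hω.ne_zero hM.ne'
  unfold eg
  rw [← Finset.smul_sum, Finset.sum_comm]
  have h1 : ∀ j ∈ range M, ∑ c ∈ range M, algebraMap k K ((ω⁻¹ ^ c) ^ j) * h^[j] a =
      if j = 0 then (M : K) * a else 0 := by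
    intro j hj
    rw [← Finset.sum_mul, ← map_sum]
    split_ifs with hj0
    · subst hj0
      simp
    · have h2 : ∑ c ∈ range M, (ω⁻¹ ^ c) ^ j = ∑ c ∈ range M, (ω⁻¹ ^ j) ^ c :=
        Finset.sum_congr rfl fun c _ => by rw [← pow_mul, ← pow_mul, mul_comm]
      have h3 : ω⁻¹ ^ j ≠ 1 := by
        rw [inv_pow]
        intro h4
        exact hω.pow_ne_one_of_pos_of_lt hj0 (mem_range.1 hj) (inv_eq_one.1 h4)
      have h5 : (ω⁻¹ ^ j) ^ M = 1 := by
        rw [← pow_mul, mul_comm, pow_mul, inv_pow, hω.pow_eq_one, inv_one, one_pow]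
      rw [h2, geom_sum_eq h3, h5, sub_self, zero_div, map_zero, zero_mul]
  rw [Finset.sum_congr rfl h1, Finset.sum_ite_eq' (range M) 0, if_pos (mem_range.2 hM),
    Algebra.smul_def, ← mul_assoc, map_inv₀, map_natCast, inv_mul_cancel₀, one_mul]
  intro h2
  apply hMk
  have h3 : algebraMap k K (M : k) = 0 := by rw [map_natCast, h2]
  exact (map_eq_zero _).1 h3

end eig

section tw

variable {k K : Type u} [Field k] [Field K] [Algebra k K]

/-- the twist -/
noncomputable def tw (k : Type u) {K : Type u} [Field k] [Field K] [Algebra k K] (ω : k)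
    (hω : ω ≠ 0) : ML K G3 →ₐ[k] ML K G3 :=
  (AddMonoidAlgebra.lift K (ML K G3) G3
    { toFun := fun d => mo (Multiplicative.toAdd d) (algebraMap k K (ω ^ co3 (Multiplicative.toAdd d)))
      map_one' := by
        rw [toAdd_one, map_zero, zpow_zero, map_one]
        exact mo_one
      map_mul' := by
        intro a b
        rw [toAdd_mul, map_add, zpow_add₀ hω, map_mul, mo_mul] }).restrictScalars k

theorem tw_mo (ω : k) (hω : ω ≠ 0) (d : G3) (a : K) :
    tw k ω hω (mo d a) = mo d (algebraMap k K (ω ^ co3 d) * a) := by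
  change (AddMonoidAlgebra.lift K (ML K G3) G3 _) (AddMonoidAlgebra.single d a) = _
  rw [AddMonoidAlgebra.lift_single]
  change a • mo d (algebraMap k K (ω ^ co3 d)) = _
  rw [smul_mo, smul_eq_mul, mul_comm]

end tw

theorem dl_iter_smul {k K : Type u} [Field k] [Field K] [Algebra k K] (g : K →ₐ[k] K) (c : k)
    (a : K) (j : ℕ) : (dl g)^[j] (algebraMap k K c * a) = algebraMap k K c * (dl g)^[j] a := by
  induction j with
  | zero => rfl
  | succ j ih =>
    rw [Function.iterate_succ_apply', ih, Function.iterate_succ_apply']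
    unfold dl
    rw [map_mul, AlgHom.commutes, mul_sub]

theorem dl_iter_comm {k K : Type u} [Field k] [Field K] [Algebra k K] (g h : K →ₐ[k] K)
    (hc : ∀ x, g (h x) = h (g x)) (a : K) (j n : ℕ) :
    h^[n] ((dl g)^[j] a) = (dl g)^[j] (h^[n] a) := by
  have h1 : ∀ x, h (dl g x) = dl g (h x) := by
    intro x
    unfold dl
    rw [map_sub, hc]
  have h2 : ∀ x, h ((dl g)^[j] x) = (dl g)^[j] (h x) := by
    intro x
    induction j generalizing x with
    | zero => rfl
    | succ j ih => rw [Function.iterate_succ_apply', h1, ih, Function.iterate_succ_apply']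
  induction n with
  | zero => rfl
  | succ n ih => rw [Function.iterate_succ_apply', ih, h2, Function.iterate_succ_apply']

theorem zpow_mem {K : Type u} {k : Type u} [Field k] [Field K] [Algebra k K]
    (R : Subalgebra k (ML K G3)) (h1 : mo (dg 0 0 1) 1 ∈ R) (h2 : mo (dg 0 0 (-1)) 1 ∈ R) (c : ℤ) :
    mo (dg 0 0 c) 1 ∈ R := by
  obtain ⟨n, rfl | rfl⟩ := Int.eq_nat_or_neg c
  · have := R.pow_mem h1 n
    rw [mo_pow, one_pow, dg_nsmul, mul_zero, mul_one] at this
    exact this
  · have := R.pow_mem h2 n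
    rw [mo_pow, one_pow, dg_nsmul, mul_zero, mul_neg, mul_one] at this
    exact this

theorem main : RwSmStm.{u} := by
  intro k K _ _ _ γ h p M ω hG B hBγ hBh r hsm
  have hM := hG.M0
  have hω := hG.om
  have hω0 : ω ≠ 0 := hω.ne_zero hM.ne'
  set g : K →ₐ[k] K := γ ^ r with hg
  have hgh : ∀ x, g (h x) = h (g x) := by
    intro x
    rw [hg, pow_app, pow_app]
    have h2 : ∀ (n : ℕ) (x : K), γ^[n] (h x) = h (γ^[n] x) := by
      intro n
      induction n with
      | zero => intro x; rfl
      | succ n ih => intro x; rw [Function.iterate_succ_apply', ih, hG.c,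
          Function.iterate_succ_apply']
    exact h2 r x
  let η : ML K G3 →ₐ[k] ML K G3 := (tw k ω hω0).comp (gm G3 (h ^ (M - 1)))
  have hη : ∀ d a, η (mo d a) = mo d (algebraMap k K (ω ^ co3 d) * h^[M - 1] a) := by
    intro d a
    change tw k ω hω0 (gm G3 (h ^ (M - 1)) (mo d a)) = _
    rw [gm_mo, tw_mo, pow_app]
  have hit1 : ∀ n, h^[n] (1 : K) = 1 := fun n => Function.iterate_fixed (map_one h) n
  set S : Subalgebra k (ML K G3) := RW γ h r ω B with hS
  have hzmem : ∀ c : ℤ, (M : ℤ) ∣ c → mo (dg 0 0 c) (1 : K) ∈ S := by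
    intro c hc
    rw [hS]
    unfold RW
    refine Algebra.subset_adjoin (Or.inr ⟨1, B.one_mem, c, ?_, 0, ?_⟩)
    · rw [map_one, (hω.zpow_eq_one_iff_dvd c).2 hc, map_one, one_mul]
    · simp
  have key := Pool.Agent.W762.ET.tame k (ML K G3) M hM hG.Mk ω hω η (mo (dg 0 0 1) 1)
    (mo (dg 0 0 (-1)) 1) (by
      rw [mo_mul, dg_add, mul_one]
      exact mo_one) (by
      rw [hη, hit1, mul_one, co3_dg, zpow_one, algebraMap_ML, mo_mul, zero_add, mul_one])
    S (by
      intro f hf
      have h1 : S ≤ fx η := by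
        rw [hS]
        unfold RW
        rw [Algebra.adjoin_le_iff]
        rintro y (hy | ⟨a, haB, c, hac, j, rfl⟩)
        · rw [hy]
          change η (sS K) = sS K
          unfold sS
          rw [hη, hit1, co3_dg, zpow_zero, map_one, one_mul]
        · change η _ = _
          rw [hη, co3_dg, dl_iter_comm _ _ hgh]
          have h2 : ∀ n : ℕ, h^[n] a = algebraMap k K ((ω ^ c) ^ n) * a := by
            intro n
            induction n with
            | zero => simp
            | succ n ih =>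
              rw [Function.iterate_succ_apply', ih, map_mul, AlgHom.commutes, hac, ← mul_assoc,
                ← map_mul, pow_succ]
          rw [h2, dl_iter_smul, ← mul_assoc, ← map_mul, ← pow_succ', Nat.sub_add_cancel hM]
          have h3 : (ω ^ c) ^ M = 1 := by
            rw [← zpow_natCast, ← zpow_mul, mul_comm, zpow_mul, zpow_natCast, hω.pow_eq_one,
              one_zpow]
          rw [h3, map_one, one_mul]
          rfl
      exact h1 hf)
    (by
      rw [mo_pow, one_pow, dg_nsmul, mul_zero, mul_one]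
      exact hzmem _ (dvd_refl _))
    (by
      rw [mo_pow, one_pow, dg_nsmul, mul_zero, mul_neg, mul_one]
      exact hzmem _ (dvd_neg.2 (dvd_refl _)))
  apply key
  have hE : Algebra.adjoin k ((S : Set (ML K G3)) ∪ {mo (dg 0 0 1) 1, mo (dg 0 0 (-1)) 1}) =
      RF γ r B := by
    apply le_antisymm
    · rw [Algebra.adjoin_le_iff]
      have hz1 : mo (dg 0 0 1) (1 : K) ∈ RF γ r B :=
        Algebra.subset_adjoin (Or.inl (Or.inr (Or.inl rfl)))
      have hz2 : mo (dg 0 0 (-1)) (1 : K) ∈ RF γ r B :=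
        Algebra.subset_adjoin (Or.inl (Or.inr (Or.inr rfl)))
      rintro y (hy | hy | hy)
      · have h1 : S ≤ RF γ r B := by
          rw [hS]
          unfold RW
          rw [Algebra.adjoin_le_iff]
          rintro y (hy | ⟨a, haB, c, hac, j, rfl⟩)
          · rw [hy]
            exact Algebra.subset_adjoin (Or.inl (Or.inl rfl))
          · have h2 : mo (dg j 0 c) ((dl (γ ^ r))^[j] a) =
                mo (dg j 0 0) ((dl (γ ^ r))^[j] a) * mo (dg 0 0 c) 1 := by
              rw [mo_mul, dg_add, mul_one]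
              congr 1
              simp
            rw [h2]
            exact (RF γ r B).mul_mem (Algebra.subset_adjoin (Or.inr ⟨a, haB, j, rfl⟩))
              (zpow_mem _ hz1 hz2 c)
        exact h1 hy
      · rw [hy]; exact hz1
      · rw [hy]; exact hz2
    · unfold RF
      rw [Algebra.adjoin_le_iff]
      set E : Subalgebra k (ML K G3) :=
        Algebra.adjoin k ((S : Set (ML K G3)) ∪ {mo (dg 0 0 1) 1, mo (dg 0 0 (-1)) 1}) with hEdef
      have hSE : ∀ y ∈ S, y ∈ E := fun y hy => Algebra.subset_adjoin (Or.inl hy)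
      have hz1 : mo (dg 0 0 1) (1 : K) ∈ E := Algebra.subset_adjoin (Or.inr (Or.inl rfl))
      have hz2 : mo (dg 0 0 (-1)) (1 : K) ∈ E := Algebra.subset_adjoin (Or.inr (Or.inr rfl))
      rintro y ((hy | hy | hy) | ⟨a, haB, j, rfl⟩)
      · rw [hy]
        apply hSE
        rw [hS]
        exact Algebra.subset_adjoin (Or.inl rfl)
      · rw [hy]; exact hz1
      · rw [hy]; exact hz2
      · have h1 : (dl (γ ^ r))^[j] a = ∑ c ∈ range M, (dl (γ ^ r))^[j] (eg h M ω c a) := by
          conv_lhs => rw [← eg_sum (h := h) hω hM hG.Mk a]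
          have h2 : ∀ (s : Finset ℕ) (f : ℕ → K), (dl (γ ^ r))^[j] (∑ c ∈ s, f c) =
              ∑ c ∈ s, (dl (γ ^ r))^[j] (f c) := by
            intro s f
            induction s using Finset.induction_on with
            | empty => simp [dl_iter_zero]
            | insert c s hc ih => rw [Finset.sum_insert hc, Finset.sum_insert hc, dl_iter_add, ih]
          exact h2 _ _
        rw [h1]
        have h3 : ∀ (s : Finset ℕ) (f : ℕ → K), mo (dg j 0 0) (∑ c ∈ s, f c) =
            ∑ c ∈ s, mo (dg j 0 0) (f c) := by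
          intro s f
          induction s using Finset.induction_on with
          | empty => simp [mo_zero]
          | insert c s hc ih => rw [Finset.sum_insert hc, Finset.sum_insert hc, mo_add, ih]
        rw [h3]
        refine E.sum_mem fun c _ => ?_
        have h4 : mo (dg j 0 0) ((dl (γ ^ r))^[j] (eg h M ω c a)) =
            mo (dg j 0 c) ((dl (γ ^ r))^[j] (eg h M ω c a)) * mo (dg 0 0 (-c)) 1 := by
          rw [mo_mul, dg_add, mul_one]
          congr 1
          simp
        rw [h4]
        refine E.mul_mem (hSE _ ?_) (zpow_mem _ hz1 hz2 _)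
        rw [hS]
        refine Algebra.subset_adjoin (Or.inr ⟨eg h M ω c a, eg_mem hBh haB c, c, ?_, j, rfl⟩)
        rw [zpow_natCast]
        exact eg_h hω hM (hG.hM a) c
  rw [hE]
  exact hsm

end Pool.Agent.W933.ETRW
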