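import Pool.Agent.W559.Wr.Stm

/-!
# Project WR: Sylow subgroups of symmetric groups
-/

set_option autoImplicit false

universe u

namespace Pool.Agent.W933.WrSyl

open Pool.Agent.W559.Wr

/-- the elements of the wreath product -/
def ph {ι ι' : Type} (x : (ι' → Equiv.Perm ι) × Equiv.Perm ι') : Equiv.Perm (ι × ι') where
  toFun a := (x.1 a.2 a.1, x.2 a.2)
  invFun a := ((x.1 (x.2⁻¹ a.2))⁻¹ a.1, x.2⁻¹ a.2)
  left_inv a := by simp
  right_inv a := by simp

theorem ph_inj {ι ι' : Type} [Nonempty ι] : Function.Injective (ph (ι := ι) (ι' := ι')) := by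
  intro x y h
  have h1 : ∀ i j, (x.1 j i, x.2 j) = (y.1 j i, y.2 j) := fun i j =>
    congrArg (fun f : Equiv.Perm (ι × ι') => f (i, j)) h
  refine Prod.ext (funext fun j => Equiv.ext fun i => ?_) (Equiv.ext fun j => ?_)
  · exact (Prod.ext_iff.1 (h1 i j)).1
  · obtain ⟨i⟩ := ‹Nonempty ι›
    exact (Prod.ext_iff.1 (h1 i j)).2

theorem card_wr {ι ι' : Type} [Nonempty ι] [Fintype ι'] (P : Subgroup (Equiv.Perm ι))
    (P' : Subgroup (Equiv.Perm ι')) :
    Nat.card (wrGrp P P') = Nat.card P ^ Fintype.card ι' * Nat.card P' := by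
  let φ : (ι' → P) × P' → Equiv.Perm (ι × ι') := fun x => ph (fun j => (x.1 j : Equiv.Perm ι), x.2)
  have hφ : Function.Injective φ := by
    intro x y h
    have h1 := Prod.ext_iff.1 (ph_inj h)
    refine Prod.ext (funext fun j => Subtype.ext (congrFun h1.1 j)) (Subtype.ext h1.2)
  have hr : Set.range φ = (wrGrp P P' : Set (Equiv.Perm (ι × ι'))) := by
    ext f
    constructor
    · rintro ⟨x, rfl⟩
      exact ⟨x.2, x.2.2, fun j => x.1 j, fun j => (x.1 j).2, fun i j => rfl⟩
    · rintro ⟨h, hh, g, hg, h1⟩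
      refine ⟨(fun j => ⟨g j, hg j⟩, ⟨h, hh⟩), Equiv.ext fun a => ?_⟩
      exact (h1 a.1 a.2).symm
  have e1 : Nat.card (wrGrp P P') = Nat.card (Set.range φ) := by
    rw [hr]; rfl
  rw [e1, Nat.card_range_of_injective hφ, Nat.card_prod, Nat.card_pi, Finset.prod_const,
    Finset.card_univ]

theorem card_prodGrp {ι ι' : Type} (P : Subgroup (Equiv.Perm ι)) (P' : Subgroup (Equiv.Perm ι')) :
    Nat.card (prodGrp P P') = Nat.card P * Nat.card P' := by
  let φ : P × P' → Equiv.Perm (ι ⊕ ι') := fun x => Equiv.sumCongr (x.1 : Equiv.Perm ι) x.2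
  have hφ : Function.Injective φ := by
    intro x y h
    have h1 : ∀ i, (Sum.inl (x.1.1 i) : ι ⊕ ι') = Sum.inl (y.1.1 i) := fun i =>
      congrArg (fun f : Equiv.Perm (ι ⊕ ι') => f (Sum.inl i)) h
    have h2 : ∀ i, (Sum.inr (x.2.1 i) : ι ⊕ ι') = Sum.inr (y.2.1 i) := fun i =>
      congrArg (fun f : Equiv.Perm (ι ⊕ ι') => f (Sum.inr i)) h
    refine Prod.ext (Subtype.ext (Equiv.ext fun i => Sum.inl_injective (h1 i)))
      (Subtype.ext (Equiv.ext fun i => Sum.inr_injective (h2 i)))
  have hr : Set.range φ = (prodGrp P P' : Set (Equiv.Perm (ι ⊕ ι'))) := by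
    ext f
    constructor
    · rintro ⟨x, rfl⟩
      exact ⟨x.1, x.1.2, x.2, x.2.2, fun i => rfl, fun i => rfl⟩
    · rintro ⟨g, hg, g', hg', h1, h2⟩
      refine ⟨(⟨g, hg⟩, ⟨g', hg'⟩), Equiv.ext fun a => ?_⟩
      rcases a with a | a
      · exact (h1 a).symm
      · exact (h2 a).symm
  have e1 : Nat.card (prodGrp P P') = Nat.card (Set.range φ) := by
    rw [hr]; rfl
  rw [e1, Nat.card_range_of_injective hφ, Nat.card_prod]

theorem order_rot (p : ℕ) (hp : 2 ≤ p) : orderOf (finRotate p) = p := by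
  rw [(isCycle_finRotate_of_le hp).orderOf, support_finRotate_of_le hp, Finset.card_univ,
    Fintype.card_fin]

theorem card_perm (n : ℕ) : Nat.card (Equiv.Perm (Fin n)) = n.factorial := by
  rw [Nat.card_perm, Nat.card_eq_fintype_card, Fintype.card_fin]

/-- the group theory -/
theorem key (Q : ∀ (ι : Type) [Fintype ι], Subgroup (Equiv.Perm ι) → Prop) (p : ℕ)
    [hp : Fact p.Prime]
    (hcyc : ∀ (n : ℕ) (π : Equiv.Perm (Fin n)), π ^ (p * p) = 1 →
      Q (Fin n) (Subgroup.zpowers π))
    (hsum : ∀ (ι ι' : Type) [Fintype ι] [Fintype ι'] (P : Subgroup (Equiv.Perm ι))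
      (P' : Subgroup (Equiv.Perm ι')), Q ι P → Q ι' P' → Q (ι ⊕ ι') (prodGrp P P'))
    (hwr : ∀ (ι ι' : Type) [Fintype ι] [Fintype ι'] (P : Subgroup (Equiv.Perm ι))
      (P' : Subgroup (Equiv.Perm ι')), Q ι P → Q ι' P' → Q (ι × ι') (wrGrp P P'))
    (hrel : ∀ (ι ι' : Type) [Fintype ι] [Fintype ι'] (f : ι ≃ ι') (P : Subgroup (Equiv.Perm ι)),
      Q ι P → Q ι' (P.map (f.permCongrHom : Equiv.Perm ι ≃* Equiv.Perm ι').toMonoidHom))
    (n : ℕ) (P : Sylow p (Equiv.Perm (Fin n))) : Q (Fin n) P := by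
  have hp2 := hp.out.two_le
  have hbot : ∀ r : ℕ, Q (Fin r) ⊥ := by
    intro r
    have := hcyc r 1 (one_pow _)
    rwa [Subgroup.zpowers_one_eq_bot] at this
  induction n using Nat.strong_induction_on with
  | _ n ih =>
    rcases Nat.lt_or_ge n p with hnp | hnp
    · have h1 : (P : Subgroup (Equiv.Perm (Fin n))) = ⊥ := by
        rw [← Subgroup.card_eq_one, P.card_eq_multiplicity, card_perm,
          Nat.factorization_eq_zero_of_not_dvd, pow_zero]
        intro h
        exact absurd ((hp.out.dvd_factorial).1 h) (not_le.2 hnp)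
      rw [h1]
      exact hbot n
    · set q := n / p with hq
      set r := n % p with hr
      have hn : p * q + r = n := Nat.div_add_mod n p
      have hq1 : 1 ≤ q := (Nat.one_le_div_iff hp.out.pos).2 hnp
      have hqn : q < n := Nat.div_lt_self (by omega) hp2
      obtain ⟨S⟩ : Nonempty (Sylow p (Equiv.Perm (Fin q))) := inferInstance
      have hS := ih q hqn S
      set C : Subgroup (Equiv.Perm (Fin p)) := Subgroup.zpowers (finRotate p) with hC
      have hord := order_rot p hp2
      have hQC : Q (Fin p) C := by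
        apply hcyc
        rw [← orderOf_dvd_iff_pow_eq_one, hord]
        exact dvd_mul_right _ _
      have hcC : Nat.card C = p := by
        rw [hC, Nat.card_zpowers, hord]
      have h1 := hsum (Fin p × Fin q) (Fin r) (wrGrp C S) ⊥ (hwr (Fin p) (Fin q) C (S : Subgroup (Equiv.Perm (Fin q))) hQC hS) (hbot r)
      have hcard : Fintype.card ((Fin p × Fin q) ⊕ Fin r) = n := by
        simp [hn]
      let f : (Fin p × Fin q) ⊕ Fin r ≃ Fin n := Fintype.equivFinOfCardEq hcard
      have h2 := hrel _ _ f _ h1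
      set P1 : Subgroup (Equiv.Perm (Fin n)) := (prodGrp (wrGrp C S) ⊥).map
        (f.permCongrHom : Equiv.Perm _ ≃* Equiv.Perm _).toMonoidHom with hP1
      have : Nonempty (Fin p) := ⟨⟨0, hp.out.pos⟩⟩
      have hc1 : Nat.card P1 = p ^ (Nat.card (Equiv.Perm (Fin n))).factorization p := by
        rw [hP1, Subgroup.card_map_of_injective (MulEquiv.injective _), card_prodGrp, card_wr,
          Subgroup.card_bot, mul_one, hcC, S.card_eq_multiplicity, card_perm, card_perm,
          Fintype.card_fin, ← pow_add]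
        congr 1
        rw [Nat.factorization_def _ hp.out, Nat.factorization_def _ hp.out, ← hn,
          padicValNat_factorial_mul_add q (Nat.mod_lt n hp.out.pos), padicValNat_factorial_mul,
          add_comm]
      obtain ⟨g, hg⟩ := MulAction.exists_smul_eq (Equiv.Perm (Fin n)) (Sylow.ofCard P1 hc1) P
      have h3 : (P : Subgroup (Equiv.Perm (Fin n))) =
          P1.map (g.permCongrHom : Equiv.Perm (Fin n) ≃* Equiv.Perm (Fin n)).toMonoidHom := by
        rw [← hg]
        ext x
        rw [Subgroup.mem_map, Sylow.coe_subgroup_smul, Sylow.coe_ofCard]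
        rw [Subgroup.mem_pointwise_smul_iff_inv_smul_mem]
        constructor
        · intro hx
          refine ⟨_, hx, ?_⟩
          ext i
          simp
        · rintro ⟨y, hy, rfl⟩
          convert hy using 1
          ext i
          simp
      rw [h3]
      exact hrel _ _ g _ h2

theorem syl (hcyc : CycStm.{u}) (hsum : SumStm.{u}) (hwr : WrStm.{u}) (hrel : RelStm.{u}) :
    SylStm.{u} := by
  intro k _ p _ hpk n P
  exact key (fun ι _ P => QQ k ι P) p
    (fun n π hπ => hcyc k p 1 Fact.out hpk (by simp) ⟨1, IsPrimitiveRoot.one⟩ n π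
      (by rwa [mul_one]))
    (fun ι ι' _ _ P P' => hsum k ι ι' P P') (fun ι ι' _ _ P P' => hwr k ι ι' P P')
    (fun ι ι' _ _ f P => hrel k ι ι' f P) n P

end Pool.Agent.W933.WrSyl
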