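import Pool.Agent.W785.DF.Stubs2

open MeasureTheory Set
open scoped ContDiff InnerProductSpace

namespace Pool.Agent.W933.DFRes

open Pool.Agent.W785.DF
open H459R3.NS (V K3 Per pd fr ee cube)

/-- the half space -/
abbrev Q : Set (ℝ × V) := Ici 0 ×ˢ univ

theorem uQ : UniqueDiffOn ℝ Q := (uniqueDiffOn_Ici 0).prod uniqueDiffOn_univ

variable {f : ℝ → V → ℝ}

theorem hfd (hf : ContDiffOn ℝ ∞ (fun z : ℝ × V => f z.1 z.2) Q) {t : ℝ} (ht : 0 ≤ t) (x : V) :
    HasFDerivWithinAt (fun z : ℝ × V => f z.1 z.2)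
      (fderivWithin ℝ (fun z : ℝ × V => f z.1 z.2) Q (t, x)) Q (t, x) :=
  ((hf.differentiableOn (by simp)) (t, x) ⟨ht, mem_univ _⟩).hasFDerivWithinAt

theorem pd_slice (hf : ContDiffOn ℝ ∞ (fun z : ℝ × V => f z.1 z.2) Q) {t : ℝ} (ht : 0 ≤ t)
    (j : Fin 3) (x : V) : pd j (f t) x =
      fderivWithin ℝ (fun z : ℝ × V => f z.1 z.2) Q (t, x) (0, Pi.single j 1) := by
  have h1 := hfd hf ht x
  have h2 : HasFDerivWithinAt (fun y : V => ((t, y) : ℝ × V))
      (ContinuousLinearMap.inr ℝ ℝ V) univ x :=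
    (hasFDerivAt_prodMk_right t x).hasFDerivWithinAt
  have h3 := h1.comp x h2 (fun y _ => ⟨ht, mem_univ _⟩)
  rw [hasFDerivWithinAt_univ] at h3
  unfold pd
  have h4 : fderiv ℝ (f t) x = _ := h3.fderiv
  rw [h4]
  simp

theorem dt_slice (hf : ContDiffOn ℝ ∞ (fun z : ℝ × V => f z.1 z.2) Q) {t : ℝ} (ht : 0 ≤ t)
    (x : V) : derivWithin (fun s => f s x) (Ici 0) t =
      fderivWithin ℝ (fun z : ℝ × V => f z.1 z.2) Q (t, x) (1, 0) := by
  have h1 := hfd hf ht x
  have h2 : HasDerivWithinAt (fun s : ℝ => ((s, x) : ℝ × V)) (1, 0) (Ici 0) t :=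
    (hasDerivWithinAt_id t _).prodMk (hasDerivWithinAt_const t _ x)
  have hm : MapsTo (fun s : ℝ => ((s, x) : ℝ × V)) (Ici 0) Q := fun s hs => ⟨hs, mem_univ _⟩
  have h3 := HasFDerivWithinAt.comp_hasDerivWithinAt t h1 h2 hm
  exact h3.derivWithin (uniqueDiffOn_Ici 0 t ht)

theorem cd_fd (hf : ContDiffOn ℝ ∞ (fun z : ℝ × V => f z.1 z.2) Q) (v : ℝ × V) :
    ContDiffOn ℝ ∞ (fun z : ℝ × V => fderivWithin ℝ (fun z : ℝ × V => f z.1 z.2) Q z v) Q :=
  (hf.fderivWithin uQ (by norm_cast)).clm_apply contDiffOn_const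

theorem cd_pd (hf : ContDiffOn ℝ ∞ (fun z : ℝ × V => f z.1 z.2) Q) (j : Fin 3) :
    ContDiffOn ℝ ∞ (fun z : ℝ × V => pd j (f z.1) z.2) Q :=
  (cd_fd hf (0, Pi.single j 1)).congr (fun z hz => pd_slice hf hz.1 j z.2)

theorem cd_dt (hf : ContDiffOn ℝ ∞ (fun z : ℝ × V => f z.1 z.2) Q) :
    ContDiffOn ℝ ∞ (fun z : ℝ × V => derivWithin (fun s => f s z.2) (Ici 0) z.1) Q :=
  (cd_fd hf (1, 0)).congr (fun z hz => dt_slice hf hz.1 z.2)

theorem per_pd {g : V → ℝ} (hg : Per g) (j : Fin 3) : Per (pd j g) := by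
  intro i x
  unfold pd
  have : (fun y => g (y + Pi.single i 1)) = g := funext fun y => hg i y
  rw [← fderiv_comp_add_right, this]

theorem per_comp {g : V → V} (hg : Per g) (i : Fin 3) : Per (fun x => g x i) :=
  fun k x => congrFun (hg k x) i

theorem main : S_res := by
  intro ν f u p hfo hu hp hpu hpp hdiv
  have hui : ∀ i : Fin 3, ContDiffOn ℝ ∞ (fun z : ℝ × V => (fun t y => u t y i) z.1 z.2) Q :=
    fun i => (contDiffOn_pi.1 hu) i
  have hfi : ∀ i : Fin 3, ContDiffOn ℝ ∞ (fun z : ℝ × V => f z.1 z.2 i) Q :=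
    fun i => (contDiffOn_pi.1 hfo.smooth) i
  have hsm : ContDiffOn ℝ ∞ (fun z : ℝ × V => resid ν f u p z.1 z.2) (Ici 0 ×ˢ univ) := by
    rw [contDiffOn_pi]
    intro i
    unfold resid
    refine ContDiffOn.sub (ContDiffOn.add (ContDiffOn.sub (ContDiffOn.add ?_ ?_) ?_) ?_) (hfi i)
    · exact cd_dt (f := fun t y => u t y i) (hui i)
    · refine ContDiffOn.sum (fun j _ => ?_)
      exact (hui j).mul (cd_pd (f := fun t y => u t y i) (hui i) j)
    · refine contDiffOn_const.mul (ContDiffOn.sum (fun j _ => ?_))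
      exact cd_pd (f := fun t y => pd j (fun y => u t y i) y)
        (cd_pd (f := fun t y => u t y i) (hui i) j) j
    · exact cd_pd hp i
  have hper : ∀ t, 0 ≤ t → Per (resid ν f u p t) := by
    intro t ht k x
    funext i
    unfold resid
    have h1 : derivWithin (fun s => u s (x + Pi.single k 1) i) (Ici 0) t =
        derivWithin (fun s => u s x i) (Ici 0) t :=
      derivWithin_congr (fun s hs => congrFun (hpu s hs k x) i) (congrFun (hpu t ht k x) i)
    have h2 : ∀ j, pd j (fun y => u t y i) (x + Pi.single k 1) = pd j (fun y => u t y i) x :=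
      fun j => per_pd (per_comp (hpu t ht) i) j k x
    have h3 : ∀ j, pd j (pd j fun y => u t y i) (x + Pi.single k 1) =
        pd j (pd j fun y => u t y i) x :=
      fun j => per_pd (per_pd (per_comp (hpu t ht) i) j) j k x
    have h4 : pd i (p t) (x + Pi.single k 1) = pd i (p t) x := per_pd (hpp t ht) i k x
    have h5 : f t (x + Pi.single k 1) i = f t x i := congrFun (hfo.per t ht k x) i
    rw [h1, h4, h5, hpu t ht k x]
    simp only [h2, h3]
  refine ⟨hsm, hper, hu, hp, hpu, hpp, ?_, hdiv, rfl⟩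
  intro t ht x i
  simp only [Pi.add_apply, resid]
  ring

end Pool.Agent.W933.DFRes
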