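import Pool.Agent.W810.KP.Defs

namespace Pool.Agent.W933.KPKap

open Pool.Agent.W810.KP H974 H12S H973N Finset MeasureTheory Filter Topology

theorem ok_of {q : ℝ} (h0 : 0 ≤ q) (h1 : q ≤ 1) : Ok (fun _ : Edg => q) := fun _ => ⟨h0, h1⟩

theorem cont_PQ (S : Finset Edg) (A : Finset Edg → Prop) : Continuous (fun q : ℝ => PQ q S A) := by
  have h : ∀ q : ℝ, DifferentiableAt ℝ (fun q : ℝ => PQ q S A) q := by
    intro q
    have := Ex_hasDerivAt (fun (q : ℝ) (_ : Edg) => q) (fun _ => 1) q (fun _ => hasDerivAt_id q) S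
      (fun F => ind (A F))
    exact this.differentiableAt
  exact (show Differentiable ℝ _ from h).continuous

theorem PQ_mem {q : ℝ} (h0 : 0 ≤ q) (h1 : q ≤ 1) (S : Finset Edg) (A : Finset Edg → Prop) :
    0 ≤ PQ q S A ∧ PQ q S A ≤ 1 := ⟨Pr_nonneg (ok_of h0 h1) S A, Pr_le_one (ok_of h0 h1) S A⟩

theorem gb_meas (b : Bool) : Measurable (gb b) := by
  unfold gb
  exact Measurable.iSup (fun n => (cont_PQ (boxE n) (Con (e0 b))).measurable)

theorem gb_mem (b : Bool) {q : ℝ} (h0 : 0 ≤ q) (h1 : q ≤ 1) : 0 ≤ gb b q ∧ gb b q ≤ 1 := by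
  unfold gb
  refine ⟨Real.iSup_nonneg (fun n => (PQ_mem h0 h1 _ _).1), ciSup_le (fun n => (PQ_mem h0 h1 _ _).2)⟩

theorem gg_meas : Measurable gg := by
  unfold gg
  exact ((gb_meas true).add (gb_meas false)).div_const 2

theorem gg_mem {q : ℝ} (h0 : 0 ≤ q) (h1 : q ≤ 1) : 0 ≤ gg q ∧ gg q ≤ 1 := by
  unfold gg
  have ht := gb_mem true h0 h1
  have hf := gb_mem false h0 h1
  constructor <;> linarith [ht.1, ht.2, hf.1, hf.2]

theorem gg_int : IntervalIntegrable gg volume 0 1 := by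
  rw [intervalIntegrable_iff_integrableOn_Ioc_of_le zero_le_one]
  refine Measure.integrableOn_of_bounded (M := 1) (by simp) gg_meas.aestronglyMeasurable ?_
  refine (ae_restrict_iff' measurableSet_Ioc).2 (Eventually.of_forall ?_)
  intro x hx
  have := gg_mem hx.1.le hx.2
  rw [Real.norm_eq_abs, abs_le]
  constructor <;> linarith [this.1, this.2]

/-- The edges of the `n × n` box. -/
noncomputable abbrev En (n : ℕ) : Finset Edg := RE 0 ((n:ℤ) - 1) 0 ((n:ℤ) - 1)

theorem card_En (n : ℕ) : (En n).card = 2 * (n * (n - 1)) := by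
  have h : En n = (Finset.Ico (0:ℤ) ((n:ℤ) - 1) ×ˢ (Finset.Icc (0:ℤ) ((n:ℤ) - 1) ×ˢ {true})) ∪
      (Finset.Icc (0:ℤ) ((n:ℤ) - 1) ×ˢ (Finset.Ico (0:ℤ) ((n:ℤ) - 1) ×ˢ {false})) := by
    ext ⟨x, y, b⟩
    cases b
    · simp [Finset.mem_union, Finset.mem_product]; omega
    · simp [Finset.mem_union, Finset.mem_product]; omega
  rw [h, Finset.card_union_of_disjoint]
  · simp only [Finset.card_product, Int.card_Ico, Int.card_Icc, Finset.card_singleton]
    have e1 : ((n:ℤ) - 1 - 0).toNat = n - 1 := by omega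
    have e2 : ((n:ℤ) - 1 + 1 - 0).toNat = n := by omega
    rw [e1, e2]; ring
  · rw [Finset.disjoint_left]
    rintro ⟨x, y, b⟩ h1 h2
    simp [Finset.mem_product] at h1 h2
    have a1 := h1.2.2
    have a2 := h2.2.2
    rw [a1] at a2; simp at a2

theorem card_lim : Tendsto (fun n : ℕ => ((En n).card : ℝ) / (n:ℝ) ^ 2) atTop (𝓝 2) := by
  have h : (fun n : ℕ => ((En n).card : ℝ) / (n:ℝ) ^ 2) =ᶠ[atTop] fun n : ℕ => 2 - 2 * ((n:ℝ))⁻¹ := by
    filter_upwards [eventually_gt_atTop 0] with n hn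
    rw [card_En]
    have hn' : (n:ℝ) ≠ 0 := by positivity
    have : ((n - 1 : ℕ) : ℝ) = n - 1 := by
      rw [Nat.cast_sub hn]; simp
    push_cast [this]
    field_simp
  rw [tendsto_congr' h]
  have h2 : Tendsto (fun n : ℕ => ((n:ℝ))⁻¹) atTop (𝓝 0) := tendsto_inv_atTop_nhds_zero_nat
  have := (h2.const_mul 2).const_sub 2
  simpa using this

/-- The integrand. -/
noncomputable def D (n : ℕ) (s : ℝ) : ℝ := (∑ e ∈ En n, (1 - PQ s (En n) (Con e))) / (n:ℝ) ^ 2

theorem D_cont (n : ℕ) : Continuous (D n) := by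
  unfold D
  refine Continuous.div_const (continuous_finset_sum _ (fun e _ => ?_)) _
  exact continuous_const.sub (cont_PQ _ _)

theorem D_bd (n : ℕ) {s : ℝ} (h0 : 0 ≤ s) (h1 : s ≤ 1) : |D n s| ≤ 2 := by
  unfold D
  have h2 : 0 ≤ ∑ e ∈ En n, (1 - PQ s (En n) (Con e)) :=
    Finset.sum_nonneg (fun e _ => by linarith [(PQ_mem h0 h1 (En n) (Con e)).2])
  have h3 : ∑ e ∈ En n, (1 - PQ s (En n) (Con e)) ≤ ∑ e ∈ En n, (1:ℝ) :=
    Finset.sum_le_sum (fun e _ => by linarith [(PQ_mem h0 h1 (En n) (Con e)).1])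
  rw [Finset.sum_const, nsmul_eq_mul, mul_one, card_En] at h3
  have h4 : ((2 * (n * (n - 1)) : ℕ) : ℝ) ≤ 2 * (n:ℝ) ^ 2 := by
    have : 2 * (n * (n - 1)) ≤ 2 * n ^ 2 := by
      have : n * (n - 1) ≤ n * n := Nat.mul_le_mul_left _ (Nat.sub_le _ _)
      nlinarith
    exact_mod_cast this
  rw [abs_of_nonneg (by positivity)]
  rcases Nat.eq_zero_or_pos n with hn | hn
  · subst hn; simp
  · rw [div_le_iff₀ (by positivity)]; linarith

theorem D_lim (h2 : S_limb) {s : ℝ} (h0 : 0 ≤ s) (h1 : s ≤ 1) :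
    Tendsto (fun n : ℕ => D n s) atTop (𝓝 (2 * (1 - gg s))) := by
  have := card_lim.sub (h2 s h0 h1)
  rw [show 2 * (1 - gg s) = 2 - 2 * gg s by ring]
  refine this.congr (fun n => ?_)
  unfold D
  rw [Finset.sum_sub_distrib, Finset.sum_const, nsmul_eq_mul, mul_one, sub_div]

theorem main (h1 : S_kder) (h2 : S_limb) : S_kap := by
  refine ⟨gg_int, fun q hq0 hq1 => ?_⟩
  have hint : Tendsto (fun n : ℕ => ∫ s in (0:ℝ)..q, D n s) atTop
      (𝓝 (∫ s in (0:ℝ)..q, 2 * (1 - gg s))) := by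
    refine intervalIntegral.tendsto_integral_filter_of_dominated_convergence (fun _ => (2:ℝ))
      (Eventually.of_forall (fun n => (D_cont n).aestronglyMeasurable)) ?_ (by simp) ?_
    · refine Eventually.of_forall (fun n => Eventually.of_forall (fun s hs => ?_))
      rw [Set.uIoc_of_le hq0] at hs
      exact D_bd n hs.1.le (hs.2.trans hq1)
    · refine Eventually.of_forall (fun s hs => ?_)
      rw [Set.uIoc_of_le hq0] at hs
      exact D_lim h2 hs.1.le (hs.2.trans hq1)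
  rw [intervalIntegral.integral_const_mul] at hint
  have h3 : ∀ᶠ n : ℕ in atTop, 1 - ∫ s in (0:ℝ)..q, D n s = meanK n q / (n:ℝ) ^ 2 := by
    filter_upwards [eventually_gt_atTop 0] with n hn
    have hd : ∀ x ∈ Set.uIcc (0:ℝ) q, HasDerivAt (fun x => meanK n x / (n:ℝ) ^ 2) (- D n x) x := by
      intro x _
      have := ((h1 n).2 x).div_const ((n:ℝ) ^ 2)
      unfold D
      rw [← neg_div]
      exact this
    have hf := intervalIntegral.integral_eq_sub_of_hasDerivAt hd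
      ((D_cont n).neg.intervalIntegrable 0 q)
    rw [intervalIntegral.integral_neg, (h1 n).1, div_self (by positivity)] at hf
    linarith
  exact (hint.const_sub 1).congr' h3

end Pool.Agent.W933.KPKap
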