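import Mathlib
import Pool.Agent.W875.NK.Spec

/-!
# NK-C: chain condition for graded submodules
-/

set_option autoImplicit false

namespace Pool.Agent.W933.NKC

open DirectSum

section

variable {k : Type} [Field k] {M : ℕ → Type} [∀ n, AddCommGroup (M n)] [∀ n, Module k (M n)]

/-- the shift operator -/
noncomputable def shf (x : ∀ n, M n →ₗ[k] M (n + 1)) : Module.End k (⨁ n, M n) :=
  DirectSum.toModule k ℕ (⨁ n, M n) fun n => (DirectSum.lof k ℕ M (n + 1)).comp (x n)

lemma shf_lof (x : ∀ n, M n →ₗ[k] M (n + 1)) (n : ℕ) (m : M n) :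
    shf x (DirectSum.lof k ℕ M n m) = DirectSum.lof k ℕ M (n + 1) (x n m) := by
  unfold shf
  rw [DirectSum.toModule_lof]
  rfl

lemma shf_comm (x y : ∀ n, M n →ₗ[k] M (n + 1))
    (h : ∀ n m, x (n + 1) (y n m) = y (n + 1) (x n m)) : shf x * shf y = shf y * shf x := by
  refine DirectSum.linearMap_ext k fun n => ?_
  refine LinearMap.ext fun m => ?_
  simp only [LinearMap.comp_apply, Module.End.mul_apply, shf_lof, h]

/-- the graded submodule -/
def gr (K : ∀ n, Submodule k (M n)) : Submodule k (⨁ n, M n) :=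
  ⨅ n, (K n).comap (DirectSum.component k ℕ M n)

lemma mem_gr (K : ∀ n, Submodule k (M n)) (f : ⨁ n, M n) : f ∈ gr K ↔ ∀ n, f n ∈ K n := by
  unfold gr
  rw [Submodule.mem_iInf]
  rfl

lemma lof_mem_gr (K : ∀ n, Submodule k (M n)) (n : ℕ) (m : M n) :
    DirectSum.lof k ℕ M n m ∈ gr K ↔ m ∈ K n := by
  rw [mem_gr]
  constructor
  · intro h
    have := h n
    rwa [DirectSum.lof_eq_of, DirectSum.of_eq_same] at this
  · intro h i
    rw [DirectSum.lof_eq_of]
    by_cases hi : i = n
    · subst hi
      rwa [DirectSum.of_eq_same]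
    · rw [DirectSum.of_eq_of_ne _ _ _ hi]
      exact (K i).zero_mem

lemma shf_mem_gr (K : ∀ n, Submodule k (M n)) (x : ∀ n, M n →ₗ[k] M (n + 1))
    (hx : ∀ n, (K n).map (x n) ≤ K (n + 1)) (f : ⨁ n, M n) (hf : f ∈ gr K) :
    shf x f ∈ gr K := by
  classical
  have hs : f = ∑ i ∈ DFinsupp.support f, DirectSum.lof k ℕ M i (f i) := by
    conv_lhs => rw [← DirectSum.sum_support_of f]
    rfl
  rw [hs, map_sum]
  refine Submodule.sum_mem _ fun i _ => ?_
  rw [shf_lof, lof_mem_gr]
  exact hx i ⟨f i, (mem_gr K f).1 hf i, rfl⟩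

end

theorem partC : W875.NK.PartC := by
  intro k _ M _ _ _ x y z hxy hxz hyz hgen K hK hKx hKy hKz
  set s : Set (Module.End k (⨁ n, M n)) := {shf x, shf y, shf z} with hs
  have hcomm : ∀ a ∈ s, ∀ b ∈ s, a * b = b * a := by
    have h1 := shf_comm x y hxy
    have h2 := shf_comm x z hxz
    have h3 := shf_comm y z hyz
    intro a ha b hb
    simp only [hs, Set.mem_insert_iff, Set.mem_singleton_iff] at ha hb
    rcases ha with rfl | rfl | rfl <;> rcases hb with rfl | rfl | rfl <;>
      first | rfl | assumption | (symm; assumption)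
  have hfin : s.Finite := by
    rw [hs]
    exact Set.toFinite _
  have hft : Algebra.FiniteType k (Algebra.adjoin k s) := by
    rw [← Subalgebra.fg_iff_finiteType]
    obtain ⟨t, ht⟩ := hfin.exists_finset_coe
    exact ⟨t, by rw [ht]⟩
  have hnoeR : IsNoetherianRing (Algebra.adjoin k s) := by
    letI : CommRing (Algebra.adjoin k s) := Algebra.adjoinCommRingOfComm k hcomm
    exact Algebra.FiniteType.isNoetherianRing k (Algebra.adjoin k s)
  have hxs : shf x ∈ Algebra.adjoin k s := Algebra.subset_adjoin (by simp [hs])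
  have hys : shf y ∈ Algebra.adjoin k s := Algebra.subset_adjoin (by simp [hs])
  have hzs : shf z ∈ Algebra.adjoin k s := Algebra.subset_adjoin (by simp [hs])
  -- finite generation
  obtain ⟨b, hb⟩ := (Module.Finite.fg_top : (⊤ : Submodule k (M 0)).FG)
  classical
  set B : Finset (⨁ n, M n) := b.image (DirectSum.lof k ℕ M 0) with hB
  set N : Submodule (Algebra.adjoin k s) (⨁ n, M n) :=
    Submodule.span (Algebra.adjoin k s) (B : Set (⨁ n, M n)) with hN
  have hact : ∀ (r : Module.End k (⨁ n, M n)) (_ : r ∈ Algebra.adjoin k s) (f : ⨁ n, M n),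
      f ∈ N → r f ∈ N := by
    intro r hr f hf
    exact N.smul_mem (⟨r, hr⟩ : Algebra.adjoin k s) hf
  have hsm : ∀ (c : k) (f : ⨁ n, M n), f ∈ N → c • f ∈ N := by
    intro c f hf
    exact hact (algebraMap k _ c) (Subalgebra.algebraMap_mem _ c) f hf
  have hlof : ∀ (n : ℕ) (m : M n), DirectSum.lof k ℕ M n m ∈ N := by
    intro n
    induction n with
    | zero =>
      intro m
      have hm : m ∈ Submodule.span k (b : Set (M 0)) := by rw [hb]; trivial
      induction hm using Submodule.span_induction with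
      | mem a ha =>
        exact Submodule.subset_span (by
          rw [hB, Finset.coe_image]
          exact ⟨a, ha, rfl⟩)
      | zero => rw [map_zero]; exact N.zero_mem
      | add a c _ _ ha hc => rw [map_add]; exact N.add_mem ha hc
      | smul c a _ ha => rw [map_smul]; exact hsm c _ ha
    | succ n ih =>
      intro m
      have hm : m ∈ LinearMap.range (x n) ⊔ LinearMap.range (y n) ⊔ LinearMap.range (z n) := by
        rw [hgen n]; trivial
      obtain ⟨u, hu, w, ⟨c, rfl⟩, rfl⟩ := Submodule.mem_sup.1 hm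
      obtain ⟨v, ⟨a, rfl⟩, w, ⟨d, rfl⟩, rfl⟩ := Submodule.mem_sup.1 hu
      rw [map_add, map_add]
      refine N.add_mem (N.add_mem ?_ ?_) ?_
      · rw [← shf_lof]; exact hact _ hxs _ (ih a)
      · rw [← shf_lof]; exact hact _ hys _ (ih d)
      · rw [← shf_lof]; exact hact _ hzs _ (ih c)
  have htop : N = ⊤ := by
    rw [eq_top_iff]
    intro f _
    induction f using DirectSum.induction_on with
    | zero => exact N.zero_mem
    | of i m => exact hlof i m
    | add f g hf hg => exact N.add_mem (hf trivial) (hg trivial)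
  have hfinT : Module.Finite (Algebra.adjoin k s) (⨁ n, M n) := ⟨⟨B, htop⟩⟩
  have hnoe : IsNoetherian (Algebra.adjoin k s) (⨁ n, M n) := by
    exact @isNoetherian_of_isNoetherianRing_of_finite (Algebra.adjoin k s) (⨁ n, M n) _ _
      (Subalgebra.moduleLeft _) hnoeR hfinT
  -- the chain
  have hKm : ∀ n, Monotone fun j => K j n := fun n => monotone_nat_of_le_succ fun j => hK j n
  have hgr : ∀ (j : ℕ) (r : Module.End k (⨁ n, M n)) (_ : r ∈ Algebra.adjoin k s)
      (f : ⨁ n, M n), f ∈ gr (K j) → r f ∈ gr (K j) := by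
    intro j r hr
    induction hr using Algebra.adjoin_induction with
    | mem a ha =>
      intro f hf
      simp only [hs, Set.mem_insert_iff, Set.mem_singleton_iff] at ha
      rcases ha with rfl | rfl | rfl
      · exact shf_mem_gr _ _ (hKx j) f hf
      · exact shf_mem_gr _ _ (hKy j) f hf
      · exact shf_mem_gr _ _ (hKz j) f hf
    | algebraMap c => intro f hf; exact (gr (K j)).smul_mem c hf
    | add a c _ _ ha hc => intro f hf; exact (gr (K j)).add_mem (ha f hf) (hc f hf)
    | mul a c _ _ ha hc => intro f hf; exact ha _ (hc f hf)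
  let G : ℕ →o Submodule (Algebra.adjoin k s) (⨁ n, M n) :=
    { toFun := fun j =>
        { carrier := {f | f ∈ gr (K j)}
          add_mem' := fun {f g} hf hg => (gr (K j)).add_mem hf hg
          zero_mem' := (gr (K j)).zero_mem
          smul_mem' := fun r f hf => hgr j r.1 r.2 f hf }
      monotone' := fun i j hij f hf => by
        change f ∈ gr (K j)
        have hf' : f ∈ gr (K i) := hf
        rw [mem_gr] at hf' ⊢
        exact fun n => hKm n hij (hf' n) }
  obtain ⟨J, hJ⟩ := monotone_stabilizes_iff_noetherian.2 hnoe G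
  refine ⟨J, fun j hj n => ?_⟩
  have h := hJ j hj
  ext m
  rw [← lof_mem_gr (K j) n m, ← lof_mem_gr (K J) n m]
  change DirectSum.lof k ℕ M n m ∈ G j ↔ DirectSum.lof k ℕ M n m ∈ G J
  rw [h]

end Pool.Agent.W933.NKC
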