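import Pool.Agent.W217.BE.Stm

set_option autoImplicit false

namespace Pool.Agent.W933.BEGRCUT

open Pool.Agent.W217.BE

section

variable {A M : Type} [CommRing A] [AddCommGroup M] [Module A M] {J : Type}
  (ℳ : J → Submodule A M)

theorem exists_proj [DecidableEq J] (h : DirectSum.IsInternal ℳ) (P : J → Prop) :
    ∃ c : M →ₗ[A] M, (∀ a, P a → ∀ x ∈ ℳ a, c x = x) ∧ (∀ a, ¬ P a → ∀ x ∈ ℳ a, c x = 0) := by
  classical
  let e := LinearEquiv.ofBijective (DirectSum.coeLinearMap ℳ) h
  let c : M →ₗ[A] M := (DirectSum.toModule A J M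
    (fun a => if P a then (ℳ a).subtype else 0)) ∘ₗ e.symm.toLinearMap
  have key : ∀ a (x : M) (hx : x ∈ ℳ a),
      e.symm x = DirectSum.lof A J (fun a => ℳ a) a ⟨x, hx⟩ := by
    intro a x hx
    rw [LinearEquiv.symm_apply_eq]
    exact (DirectSum.coeLinearMap_lof ℳ a ⟨x, hx⟩).symm
  have hc : ∀ a (x : M) (hx : x ∈ ℳ a), c x =
      (if P a then (ℳ a).subtype else 0 : ℳ a →ₗ[A] M) ⟨x, hx⟩ := by
    intro a x hx
    show (DirectSum.toModule A J M (fun a => if P a then (ℳ a).subtype else 0)) (e.symm x) = _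
    rw [key a x hx, DirectSum.toModule_lof]
  refine ⟨c, ?_, ?_⟩
  · intro a ha x hx
    rw [hc a x hx, if_pos ha]
    rfl
  · intro a ha x hx
    rw [hc a x hx, if_neg ha]
    rfl

/-- Two linear maps which agree on the pieces are equal. -/
theorem eq_of_pieces {M' : Type} [AddCommGroup M'] (h : iSup ℳ = ⊤) (f g : M →+ M')
    (hfg : ∀ a, ∀ x ∈ ℳ a, f x = g x) (x : M) : f x = g x := by
  have hx : x ∈ iSup ℳ := by rw [h]; trivial
  refine Submodule.iSup_induction ℳ (motive := fun x => f x = g x) hx hfg ?_ ?_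
  · rw [map_zero, map_zero]
  · intro y z hy hz
    rw [map_add, map_add, hy, hz]

end

theorem kill_fg {A κ M : Type} [CommRing A] [Field κ] (χ : A →+* κ) [AddCommGroup M] [Module A M]
    (N : Submodule A M) (hN : N.FG) : (∀ x ∈ N, ∃ s : A, χ s ≠ 0 ∧ s • x = 0) →
    ∃ s : A, χ s ≠ 0 ∧ ∀ x ∈ N, s • x = 0 := by
  refine Submodule.fg_induction (R := A) (M := M)
    (motive := fun N _ => (∀ x ∈ N, ∃ s : A, χ s ≠ 0 ∧ s • x = 0) →
    ∃ s : A, χ s ≠ 0 ∧ ∀ x ∈ N, s • x = 0) ?_ ?_ N hN
  · intro x h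
    obtain ⟨s, hs, hsx⟩ := h x (Submodule.mem_span_singleton_self x)
    refine ⟨s, hs, fun y hy => ?_⟩
    obtain ⟨a, rfl⟩ := Submodule.mem_span_singleton.1 hy
    rw [smul_comm, hsx, smul_zero]
  · intro N₁ N₂ _ _ h1 h2 h
    obtain ⟨s, hs, hs'⟩ := h1 fun x hx => h x (Submodule.mem_sup_left hx)
    obtain ⟨t, ht, ht'⟩ := h2 fun x hx => h x (Submodule.mem_sup_right hx)
    refine ⟨s * t, by rw [map_mul]; exact mul_ne_zero hs ht, fun x hx => ?_⟩
    obtain ⟨y, hy, z, hz, rfl⟩ := Submodule.mem_sup.1 hx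
    rw [smul_add, mul_comm s t, mul_smul t s y, hs' y hy, smul_zero, zero_add, mul_comm t s,
      mul_smul, ht' z hz, smul_zero]

theorem cons_add_single {k : ℕ} (t : ℤ) (a : Fin k → ℤ) (j : Fin k) :
    (Fin.cons t a : Fin (k + 1) → ℤ) + Pi.single j.succ 1 = Fin.cons t (a + Pi.single j 1) := by
  funext i
  refine Fin.cases ?_ (fun i => ?_) i
  · simp
  · simp only [Pi.add_apply, Fin.cons_succ]
    congr 1
    by_cases h : i = j
    · subst h; simp
    · rw [Pi.single_eq_of_ne h, Pi.single_eq_of_ne (fun h' => h (Fin.succ_injective _ h'))]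

/-- The module structure of a submodule stable under the image of a ring. -/
@[reducible] def modOf {A S R M : Type} [CommRing A] [CommRing S] [CommRing R] [AddCommGroup M]
    [Module A M] [Module S M] (φ : R →+* S) (N : Submodule A M)
    (hN : ∀ q : R, ∀ x ∈ N, φ q • x ∈ N) : Module R N where
  smul q x := ⟨φ q • x.1, hN q x.1 x.2⟩
  one_smul x := Subtype.ext (by show φ 1 • x.1 = x.1; rw [map_one, one_smul])
  mul_smul p q x := Subtype.ext (by
    show φ (p * q) • x.1 = φ p • φ q • x.1; rw [map_mul, mul_smul])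
  smul_zero q := Subtype.ext (by show φ q • (0 : M) = 0; rw [smul_zero])
  smul_add q x y := Subtype.ext (by
    show φ q • (x.1 + y.1) = φ q • x.1 + φ q • y.1; rw [smul_add])
  add_smul p q x := Subtype.ext (by
    show φ (p + q) • x.1 = φ p • x.1 + φ q • x.1; rw [map_add, add_smul])
  zero_smul x := Subtype.ext (by show φ 0 • x.1 = 0; rw [map_zero, zero_smul])

theorem main : GRCUT := by
  classical
  intro A κ _ _ _ χ k M _ _ _ _ _ ℳ hM hX hNZ top
  have htop : iSup ℳ = ⊤ := hM.submodule_iSup_eq_top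
  choose pr hpr1 hpr2 using fun t : ℤ => exists_proj ℳ hM (fun a => a 0 = t)
  have hidem : ∀ t x, pr t (pr t x) = pr t x := by
    intro t
    refine eq_of_pieces ℳ htop ((pr t ∘ₗ pr t : M →ₗ[A] M) : M →+ M) ((pr t : M →ₗ[A] M) : M →+ M) ?_
    intro a x hx
    show pr t (pr t x) = pr t x
    by_cases ha : a 0 = t
    · rw [hpr1 t a ha x hx, hpr1 t a ha x hx]
    · rw [hpr2 t a ha x hx, map_zero]
  have hX0 : ∀ t x, pr (t + 1) ((MvPolynomial.X 0 : MvPolynomial (Fin (k + 1)) A) • x) =
      (MvPolynomial.X 0 : MvPolynomial (Fin (k + 1)) A) • pr t x := by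
    intro t
    refine eq_of_pieces ℳ htop
      (((pr (t + 1) : M →ₗ[A] M) : M →+ M).comp
        (DistribSMul.toAddMonoidHom M (MvPolynomial.X 0 : MvPolynomial (Fin (k + 1)) A)))
      ((DistribSMul.toAddMonoidHom M (MvPolynomial.X 0 : MvPolynomial (Fin (k + 1)) A)).comp
        ((pr t : M →ₗ[A] M) : M →+ M)) ?_
    intro a x hx
    show pr (t + 1) ((MvPolynomial.X 0 : MvPolynomial (Fin (k + 1)) A) • x) =
      (MvPolynomial.X 0 : MvPolynomial (Fin (k + 1)) A) • pr t x
    have h1 := hX 0 a x hx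
    by_cases ha : a 0 = t
    · rw [hpr1 t a ha x hx, hpr1 (t + 1) (a + Pi.single 0 1) (by simp [ha]) _ h1]
    · rw [hpr2 t a ha x hx, smul_zero, hpr2 (t + 1) (a + Pi.single 0 1) (by
        intro h
        apply ha
        simpa using h) _ h1]
  have hXs : ∀ (j : Fin k) t x,
      pr t ((MvPolynomial.X j.succ : MvPolynomial (Fin (k + 1)) A) • x) =
      (MvPolynomial.X j.succ : MvPolynomial (Fin (k + 1)) A) • pr t x := by
    intro j t
    refine eq_of_pieces ℳ htop
      (((pr t : M →ₗ[A] M) : M →+ M).comp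
        (DistribSMul.toAddMonoidHom M (MvPolynomial.X j.succ : MvPolynomial (Fin (k + 1)) A)))
      ((DistribSMul.toAddMonoidHom M (MvPolynomial.X j.succ : MvPolynomial (Fin (k + 1)) A)).comp
        ((pr t : M →ₗ[A] M) : M →+ M)) ?_
    intro a x hx
    show pr t ((MvPolynomial.X j.succ : MvPolynomial (Fin (k + 1)) A) • x) =
      (MvPolynomial.X j.succ : MvPolynomial (Fin (k + 1)) A) • pr t x
    have h1 := hX j.succ a x hx
    have h2 : (a + Pi.single j.succ 1 : Fin (k + 1) → ℤ) 0 = a 0 := by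
      simp
    by_cases ha : a 0 = t
    · rw [hpr1 t a ha x hx, hpr1 t (a + Pi.single j.succ 1) (by rw [h2, ha]) _ h1]
    · rw [hpr2 t a ha x hx, smul_zero, hpr2 t (a + Pi.single j.succ 1) (by rwa [h2]) _ h1]
  have hq : ∀ (t : ℤ) (q : MvPolynomial (Fin k) A) (x : M),
      pr t (MvPolynomial.rename Fin.succ q • x) = MvPolynomial.rename Fin.succ q • pr t x := by
    intro t q
    refine MvPolynomial.induction_on (motive := fun q => ∀ x : M,
      pr t (MvPolynomial.rename Fin.succ q • x) = MvPolynomial.rename Fin.succ q • pr t x) q ?_ ?_ ?_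
    · intro a x
      rw [MvPolynomial.rename_C, ← MvPolynomial.algebraMap_eq, algebraMap_smul, algebraMap_smul,
        map_smul]
    · intro p q hp hq x
      rw [map_add, add_smul, add_smul, map_add, hp, hq]
    · intro p j hp x
      rw [map_mul, MvPolynomial.rename_X, mul_smul, hp, hXs, mul_smul]
  have hcomm : ∀ (s : A) (q : MvPolynomial (Fin (k + 1)) A) (x : M), s • q • x = q • s • x :=
    fun s q x => smul_comm s q x
  -- the slabs
  let N : ℤ → Submodule A M := fun t => LinearMap.range (pr t)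
  have hmem : ∀ t x, x ∈ N t ↔ pr t x = x := by
    intro t x
    constructor
    · rintro ⟨y, rfl⟩
      exact hidem t y
    · intro h
      exact ⟨x, h⟩
  have hsub : ∀ a, ℳ a ≤ N (a 0) := fun a x hx => (hmem _ _).2 (hpr1 _ a rfl x hx)
  -- the relevant slabs
  let T : Set ℤ := {t | NZ χ (N t)}
  have hnot : ∀ t, t ∉ T → ∀ x ∈ N t, ∃ s : A, χ s ≠ 0 ∧ s • x = 0 := by
    intro t ht x hx
    by_contra hcon
    push Not at hcon
    exact ht ⟨⟨x, hx⟩, fun s hs h => hcon s hs (congrArg Subtype.val h)⟩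
  have hTne : T.Nonempty := by
    by_contra hemp
    rw [Set.not_nonempty_iff_eq_empty] at hemp
    obtain ⟨x, hx⟩ := hNZ
    have hall : ∀ y : M, ∃ s : A, χ s ≠ 0 ∧ s • y = 0 := by
      intro y
      have hy : y ∈ iSup ℳ := by rw [htop]; trivial
      refine Submodule.iSup_induction ℳ (motive := fun y => ∃ s : A, χ s ≠ 0 ∧ s • y = 0) hy ?_ ?_ ?_
      · intro a y hy
        exact hnot (a 0) (by rw [hemp]; exact fun h => h) y (hsub a hy)
      · exact ⟨1, by rw [map_one]; exact one_ne_zero, smul_zero _⟩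
      · rintro y z ⟨s, hs, hsy⟩ ⟨t, ht, htz⟩
        refine ⟨s * t, by rw [map_mul]; exact mul_ne_zero hs ht, ?_⟩
        rw [smul_add, mul_comm s t, mul_smul t s y, hsy, smul_zero, zero_add, mul_comm t s,
          mul_smul, htz, smul_zero]
    obtain ⟨s, hs, hsx⟩ := hall x
    exact hx s hs hsx
  have hTfin : T.Finite := by
    have h1 : {a | ℳ a ≠ ⊥}.Finite :=
      WellFoundedGT.finite_ne_bot_of_iSupIndep hM.submodule_iSupIndep
    refine (h1.image (fun a => a 0)).subset ?_
    intro t ht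
    by_contra hcon
    obtain ⟨x, hx⟩ := ht
    have h2 : ∀ y, pr t y = 0 := by
      refine eq_of_pieces ℳ htop ((pr t : M →ₗ[A] M) : M →+ M) (0 : M →+ M) ?_
      intro a y hy
      show pr t y = 0
      by_cases ha : a 0 = t
      · have h3 : ℳ a = ⊥ := by
          by_contra h4
          exact hcon ⟨a, h4, ha⟩
        rw [h3] at hy
        rw [(Submodule.mem_bot A).1 hy, map_zero]
      · exact hpr2 t a ha y hy
    have h5 : x = 0 := Subtype.ext (by
      rw [← (hmem t x.1).1 x.2, h2]; rfl)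
    apply hx 1 (by rw [map_one]; exact one_ne_zero)
    rw [h5, smul_zero]
  -- the construction for a given slab
  have hmain : ∀ t0 ∈ T, ∃ (_ : Module (MvPolynomial (Fin k) A) (N t0))
      (_ : IsScalarTower A (MvPolynomial (Fin k) A) (N t0))
      (𝒩 : (Fin k → ℤ) → Submodule A (N t0)) (prN : M →ₗ[A] N t0),
      DirectSum.IsInternal 𝒩 ∧
      (∀ j a x, x ∈ 𝒩 a →
        (MvPolynomial.X j : MvPolynomial (Fin k) A) • x ∈ 𝒩 (a + Pi.single j 1)) ∧
      (∀ (q : MvPolynomial (Fin k) A) (x : N t0), (((q • x : N t0)) : M) =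
        MvPolynomial.rename Fin.succ q • (x : M)) ∧
      (∀ x, (prN x : M) = pr t0 x) := by
    intro t0 _
    have hst : ∀ q : MvPolynomial (Fin k) A, ∀ x ∈ N t0,
        ((MvPolynomial.rename Fin.succ : MvPolynomial (Fin k) A →ₐ[A]
          MvPolynomial (Fin (k + 1)) A) : MvPolynomial (Fin k) A →+*
          MvPolynomial (Fin (k + 1)) A) q • x ∈ N t0 := by
      intro q x hx
      rw [hmem] at hx ⊢
      show pr t0 (MvPolynomial.rename Fin.succ q • x) = MvPolynomial.rename Fin.succ q • x
      rw [hq, hx]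
    let i1 : Module (MvPolynomial (Fin k) A) (N t0) := modOf _ (N t0) hst
    have hsm : ∀ (q : MvPolynomial (Fin k) A) (x : N t0), (((q • x : N t0)) : M) =
        MvPolynomial.rename Fin.succ q • (x : M) := fun q x => rfl
    have i2 : IsScalarTower A (MvPolynomial (Fin k) A) (N t0) := ⟨fun a q x => Subtype.ext (by
      rw [hsm, map_smul, smul_assoc]
      rfl)⟩
    let prN : M →ₗ[A] N t0 := (pr t0).rangeRestrict
    have hprN : ∀ x, (prN x : M) = pr t0 x := fun x => rfl
    have hprNx : ∀ x : N t0, prN x.1 = x := fun x => Subtype.ext (by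
      rw [hprN]; exact (hmem _ _).1 x.2)
    refine ⟨i1, i2, fun b => (ℳ (Fin.cons t0 b)).comap (N t0).subtype, prN, ?_, ?_, hsm, hprN⟩
    · rw [DirectSum.isInternal_submodule_iff_iSupIndep_and_iSup_eq_top]
      refine ⟨?_, ?_⟩
      · intro b
        obtain ⟨c, hc1, hc2⟩ := exists_proj ℳ hM (fun a => a = Fin.cons t0 b)
        rw [Submodule.disjoint_def]
        intro x hx hx2
        have h3 : (⨆ (j : Fin k → ℤ) (_ : j ≠ b), (ℳ (Fin.cons t0 j)).comap (N t0).subtype) ≤
            LinearMap.ker (c ∘ₗ (N t0).subtype) := by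
          refine iSup_le fun j => iSup_le fun hj => ?_
          intro y hy
          rw [LinearMap.mem_ker]
          refine hc2 (Fin.cons t0 j) ?_ y.1 hy
          intro h
          apply hj
          exact Fin.cons_right_injective (α := fun _ => ℤ) t0 h
        have h4 : c x.1 = 0 := h3 hx2
        have h5 : c x.1 = x.1 := hc1 _ rfl x.1 hx
        exact Subtype.ext (h5.symm.trans h4)
      · rw [eq_top_iff]
        intro x _
        have h3 : iSup ℳ ≤ (⨆ b, (ℳ (Fin.cons t0 b)).comap (N t0).subtype).comap prN := by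
          refine iSup_le fun a => ?_
          intro y hy
          rw [Submodule.mem_comap]
          by_cases ha : a 0 = t0
          · refine Submodule.mem_iSup_of_mem (Fin.tail a) ?_
            rw [Submodule.mem_comap]
            have h4 : (Fin.cons t0 (Fin.tail a) : Fin (k + 1) → ℤ) = a := by
              rw [← ha]
              exact Fin.cons_self_tail a
            rw [h4]
            show pr t0 y ∈ ℳ a
            rw [hpr1 t0 a ha y hy]
            exact hy
          · have h4 : prN y = 0 := Subtype.ext (hpr2 t0 a ha y hy)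
            rw [h4]
            exact zero_mem _
        have h5 : x.1 ∈ iSup ℳ := by rw [htop]; trivial
        have h6 := h3 h5
        rw [Submodule.mem_comap, hprNx] at h6
        exact h6
    · intro j a x hx
      rw [Submodule.mem_comap] at hx ⊢
      have h1 := hX j.succ _ _ hx
      rw [cons_add_single] at h1
      show (((MvPolynomial.X j : MvPolynomial (Fin k) A) • x : N t0) : M) ∈ _
      rw [hsm, MvPolynomial.rename_X]
      exact h1
  cases top with
  | false =>
    obtain ⟨t0, ht0, hmin⟩ := Set.exists_min_image T id hTfin hTne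
    have hn : t0 - 1 ∉ T := fun h => by
      have := hmin _ h
      simp only [id] at this
      omega
    obtain ⟨s, hs, hsk⟩ := kill_fg χ (N (t0 - 1)) (IsNoetherian.noetherian _) (hnot _ hn)
    obtain ⟨i1, i2, 𝒩, prN, h1, h2, h3, h4⟩ := hmain t0 ht0
    have h5 : ∀ x : N t0, prN x.1 = x := fun x => Subtype.ext (by
      rw [h4]; exact (hmem _ _).1 x.2)
    refine ⟨N t0, i1, i2, 𝒩, s • prN, (N t0).subtype, s, h1, h2, ht0, hs, ?_, h3, ?_, ?_, ?_⟩
    · intro x
      show s • prN x.1 = s • x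
      rw [h5]
    · intro q x
      apply Subtype.ext
      rw [h3]
      show ((s • prN (MvPolynomial.rename Fin.succ q • x) : N t0) : M) =
        MvPolynomial.rename Fin.succ q • ((s • prN x : N t0) : M)
      rw [Submodule.coe_smul, Submodule.coe_smul, h4, h4, hq, hcomm]
    · intro _ x
      apply Subtype.ext
      show ((s • prN ((MvPolynomial.X 0 : MvPolynomial (Fin (k + 1)) A) • x) : N t0) : M) = 0
      have h6 := hX0 (t0 - 1) x
      rw [sub_add_cancel] at h6
      rw [Submodule.coe_smul, h4, h6, hcomm, hsk _ ⟨x, rfl⟩, smul_zero]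
    · intro h
      exact absurd h (by decide)
  | true =>
    obtain ⟨t0, ht0, hmax⟩ := Set.exists_max_image T id hTfin hTne
    have hn : t0 + 1 ∉ T := fun h => by
      have := hmax _ h
      simp only [id] at this
      omega
    obtain ⟨s, hs, hsk⟩ := kill_fg χ (N (t0 + 1)) (IsNoetherian.noetherian _) (hnot _ hn)
    obtain ⟨i1, i2, 𝒩, prN, h1, h2, h3, h4⟩ := hmain t0 ht0
    have h5 : ∀ x : N t0, prN x.1 = x := fun x => Subtype.ext (by
      rw [h4]; exact (hmem _ _).1 x.2)
    refine ⟨N t0, i1, i2, 𝒩, prN, s • (N t0).subtype, s, h1, h2, ht0, hs, ?_, ?_, ?_, ?_, ?_⟩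
    · intro x
      show prN (s • x.1) = s • x
      rw [map_smul, h5]
    · intro q x
      show s • ((q • x : N t0) : M) = MvPolynomial.rename Fin.succ q • s • x.1
      rw [h3, hcomm]
    · intro q x
      apply Subtype.ext
      rw [h3, h4, h4, hq]
    · intro h
      exact absurd h (by decide)
    · intro _ x
      show (MvPolynomial.X 0 : MvPolynomial (Fin (k + 1)) A) • s • x.1 = 0
      rw [← hcomm]
      refine hsk _ ?_
      have h6 := hX0 t0 x.1
      rw [(hmem _ _).1 x.2] at h6
      rw [hmem]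
      exact h6

end Pool.Agent.W933.BEGRCUT
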