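import Pool.Agent.W815.RGC.StmG
import Pool.Agent.W815.RGC.Sec

set_option autoImplicit false

namespace Pool.Agent.W933.RGE

open Finset MeasureTheory Filter Topology Pool.Agent.Helper497.HS Pool.Agent.H595R2.PTF
open Pool.Agent.W815.RGC Pool.Agent.W815.RGE

/-- algebra of symmetric differences -/
theorem sd_swap {A A' C C' : Finset ℕ} (h : symmDiff A' C' = symmDiff A C) :
    symmDiff A A' = symmDiff C C' := by
  ext p
  have h1 := Finset.ext_iff.1 h p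
  simp only [Finset.mem_symmDiff] at h1 ⊢
  tauto

theorem pf_inj {n m : ℕ} (hn : Squarefree n) (hm : Squarefree m)
    (h : n.primeFactors = m.primeFactors) : n = m := by
  rw [← Nat.prod_primeFactors_of_squarefree hn, ← Nat.prod_primeFactors_of_squarefree hm, h]

/-- first part of the bound -/
noncomputable def f1 (G : ℝ) (q : ℕ × ℕ) : ℝ :=
  open Classical in if G ≤ (q.1.gcd q.2 : ℝ) then 1 else 0

/-- second part of the bound -/
noncomputable def f2 (u v : ℕ × ℕ) : ℝ :=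
  open Classical in if u.1 ≠ u.2 ∧ v.1 ≠ v.2 ∧ kap u = kap v then 1 else 0

theorem f1_nonneg (G : ℝ) (q : ℕ × ℕ) : 0 ≤ f1 G q := by
  unfold f1; split_ifs <;> norm_num

theorem f2_nonneg (u v : ℕ × ℕ) : 0 ≤ f2 u v := by
  unfold f2; split_ifs <;> norm_num

theorem nsq_le (M a b K : ℕ) (G : ℝ) (ha : a + K < M) (hb : b + K < M) :
    nsq (fun x : Fin M → ℤˣ => Gc (cf M x) G a b K) ≤
      ∑ q ∈ Ioc a (a + K) ×ˢ Ioc b (b + K), f1 G q +
      ∑ q ∈ Ioc a (a + K) ×ˢ Ioc b (b + K), ∑ q' ∈ Ioc a (a + K) ×ˢ Ioc b (b + K),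
        f2 (q.1, q'.1) (q.2, q'.2) := by
  classical
  set Q := Ioc a (a + K) ×ˢ Ioc b (b + K) with hQ
  let c : ℕ × ℕ → ℝ := fun q =>
    if (Squarefree q.1 ∧ Squarefree q.2 ∧ G ≤ (q.1.gcd q.2 : ℝ)) then 1 else 0
  let T : ℕ × ℕ → Finset (Fin M) := fun q => symmDiff (secS M q.1) (secS M q.2)
  have hlt : ∀ q ∈ Q, q.1 < M ∧ q.2 < M := by
    intro q hq
    rw [hQ, Finset.mem_product, Finset.mem_Ioc, Finset.mem_Ioc] at hq
    omega
  have hG : ∀ x : Fin M → ℤˣ, Gc (cf M x) G a b K = ∑ q ∈ Q, c q * chi (T q) x := by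
    intro x
    unfold Gc
    rw [hQ, Finset.sum_product]
    refine Finset.sum_congr rfl fun n hn => Finset.sum_congr rfl fun m hm => ?_
    rw [Finset.mem_Ioc] at hn hm
    unfold cf
    rw [sec_rf_eq _ _ (by omega), sec_rf_eq _ _ (by omega)]
    simp only [c, T]
    by_cases h1 : Squarefree n
    · by_cases h2 : Squarefree m
      · by_cases h3 : G ≤ (n.gcd m : ℝ)
        · rw [if_pos h3, if_pos h1, if_pos h2, if_pos ⟨h1, h2, h3⟩, chi_mul_chi, one_mul]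
        · have hn : ¬ (Squarefree n ∧ Squarefree m ∧ G ≤ (n.gcd m : ℝ)) := fun h => h3 h.2.2
          rw [if_neg h3, if_neg hn, zero_mul]
      · have hn : ¬ (Squarefree n ∧ Squarefree m ∧ G ≤ (n.gcd m : ℝ)) := fun h => h2 h.2.1
        rw [if_neg hn, if_neg h2, mul_zero, zero_mul, ite_self]
    · have hn : ¬ (Squarefree n ∧ Squarefree m ∧ G ≤ (n.gcd m : ℝ)) := fun h => h1 h.1
      rw [if_neg hn, if_neg h1, zero_mul, zero_mul, ite_self]
  have hns : nsq (fun x : Fin M → ℤˣ => Gc (cf M x) G a b K) =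
      ∑ q ∈ Q, ∑ q' ∈ Q, c q * c q' * (if T q' = T q then 1 else 0) := by
    unfold nsq
    have h1 : ∀ x : Fin M → ℤˣ, (Gc (cf M x) G a b K) ^ 2 =
        ∑ q ∈ Q, ∑ q' ∈ Q, (c q * c q') * (chi (T q) x * chi (T q') x) := by
      intro x
      rw [hG x, sq, Finset.sum_mul_sum]
      refine Finset.sum_congr rfl fun q _ => Finset.sum_congr rfl fun q' _ => ?_
      ring
    rw [Ex_congr h1, Ex_sum]
    refine Finset.sum_congr rfl fun q _ => ?_
    rw [Ex_sum]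
    refine Finset.sum_congr rfl fun q' _ => ?_
    rw [Ex_const_mul]
    congr 1
    exact fc_chi (T q) (T q')
  rw [hns]
  have hle : ∀ q ∈ Q, ∀ q' ∈ Q, c q * c q' * (if T q' = T q then 1 else 0) ≤
      (if q = q' then f1 G q else 0) + f2 (q.1, q'.1) (q.2, q'.2) := by
    intro q hq q' hq'
    have hr : 0 ≤ (if q = q' then f1 G q else 0) + f2 (q.1, q'.1) (q.2, q'.2) := by
      have h1 := f2_nonneg (q.1, q'.1) (q.2, q'.2)
      have h2 : 0 ≤ (if q = q' then f1 G q else 0) := by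
        split_ifs
        · exact f1_nonneg _ _
        · exact le_rfl
      linarith
    by_cases hc : Squarefree q.1 ∧ Squarefree q.2 ∧ G ≤ (q.1.gcd q.2 : ℝ)
    · by_cases hc' : Squarefree q'.1 ∧ Squarefree q'.2 ∧ G ≤ (q'.1.gcd q'.2 : ℝ)
      · by_cases hT : T q' = T q
        · have e1 : c q = 1 := if_pos hc
          have e2 : c q' = 1 := if_pos hc'
          rw [e1, e2, if_pos hT]
          have h3 := sec_T_eq M q'.1 q'.2 q.1 q.2 (hlt q' hq').1 (hlt q' hq').2 (hlt q hq).1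
            (hlt q hq).2 hT
          have h4 := sd_swap h3
          by_cases hqq : q = q'
          · rw [if_pos hqq]
            have : f1 G q = 1 := if_pos hc.2.2
            rw [this]
            have h5 := f2_nonneg (q.1, q'.1) (q.2, q'.2)
            linarith
          · rw [if_neg hqq]
            have h6 : q.1 ≠ q'.1 := by
              intro h
              apply hqq
              refine Prod.ext h ?_
              apply pf_inj hc.2.1 hc'.2.1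
              rw [h, symmDiff_self] at h4
              exact symmDiff_eq_bot.1 h4.symm
            have h7 : q.2 ≠ q'.2 := by
              intro h
              apply hqq
              refine Prod.ext ?_ h
              apply pf_inj hc.1 hc'.1
              rw [h, symmDiff_self] at h4
              exact symmDiff_eq_bot.1 h4
            have h8 : kap (q.1, q'.1) = kap (q.2, q'.2) := by
              rw [sec_kap_eq _ _ hc.1 hc'.1, sec_kap_eq _ _ hc.2.1 hc'.2.1, h4]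
            have : f2 (q.1, q'.1) (q.2, q'.2) = 1 := if_pos ⟨h6, h7, h8⟩
            rw [this]
            norm_num
        · rw [if_neg hT, mul_zero]
          exact hr
      · have e2 : c q' = 0 := if_neg hc'
        rw [e2, mul_zero, zero_mul]
        exact hr
    · have e2 : c q = 0 := if_neg hc
      rw [e2, zero_mul, zero_mul]
      exact hr
  refine (Finset.sum_le_sum fun q hq => Finset.sum_le_sum fun q' hq' => hle q hq q' hq').trans ?_
  simp only [Finset.sum_add_distrib]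
  refine add_le_add ?_ le_rfl
  refine Finset.sum_le_sum fun q hq => ?_
  rw [Finset.sum_ite_eq, if_pos hq]

/-- double counting -/
theorem gen {α : Type} [DecidableEq α] (A : Finset ℕ) (I : ℕ → Finset α) (D : Finset α) (K : ℕ)
    (hI : ∀ a ∈ A, I a ⊆ D) (hK : ∀ x ∈ D, (A.filter (fun a => x ∈ I a)).card ≤ K)
    (g : α → ℝ) (hg : ∀ x, 0 ≤ g x) :
    ∑ a ∈ A, ∑ x ∈ I a, g x ≤ K * ∑ x ∈ D, g x := by
  have h1 : ∀ a ∈ A, ∑ x ∈ I a, g x = ∑ x ∈ D, if x ∈ I a then g x else 0 := by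
    intro a ha
    rw [← Finset.sum_filter]
    congr 1
    ext x
    rw [Finset.mem_filter]
    exact ⟨fun h => ⟨hI a ha h, h⟩, fun h => h.2⟩
  rw [Finset.sum_congr rfl h1, Finset.sum_comm, Finset.mul_sum]
  refine Finset.sum_le_sum fun x hx => ?_
  rw [← Finset.sum_filter, Finset.sum_const, nsmul_eq_mul]
  refine mul_le_mul_of_nonneg_right ?_ (hg x)
  exact_mod_cast hK x hx

theorem card_a (A : Finset ℕ) (K n : ℕ) : (A.filter (fun a => n ∈ Ioc a (a + K))).card ≤ K := by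
  have h1 : A.filter (fun a => n ∈ Ioc a (a + K)) ⊆ Ico (n - K) n := by
    intro a ha
    obtain ⟨-, h1⟩ := Finset.mem_filter.1 ha
    rw [Finset.mem_Ioc] at h1
    rw [Finset.mem_Ico]
    omega
  refine (Finset.card_le_card h1).trans ?_
  rw [Nat.card_Ico]
  omega

/-- off-diagonal pairs -/
def Dg2 (N K : ℕ) : Finset (ℕ × ℕ) :=
  (Icc 1 N ×ˢ Icc 1 N).filter (fun x => x.1 ≠ x.2 ∧ x.1 < x.2 + K ∧ x.2 < x.1 + K)

theorem kap_swap (u : ℕ × ℕ) : kap u.swap = kap u := by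
  unfold kap
  simp only [Prod.fst_swap, Prod.snd_swap]
  rw [Nat.gcd_comm u.2 u.1, mul_comm]

theorem sum_Dg2 (N K : ℕ) (F : ℕ × ℕ → ℝ) (hF : ∀ u, F u.swap = F u) :
    ∑ u ∈ Dg2 N K, F u = 2 * ∑ u ∈ PR N K, F u := by
  have h1 : ∑ u ∈ Dg2 N K, F u = ∑ u ∈ (Dg2 N K).filter (fun u => u.1 < u.2), F u +
      ∑ u ∈ (Dg2 N K).filter (fun u => ¬ u.1 < u.2), F u :=
    (Finset.sum_filter_add_sum_filter_not _ _ _).symm
  have h2 : (Dg2 N K).filter (fun u => u.1 < u.2) = PR N K := by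
    ext u
    unfold Dg2 PR
    simp only [Finset.mem_filter, Finset.mem_product, Finset.mem_Icc]
    omega
  have h3 : ∑ u ∈ (Dg2 N K).filter (fun u => ¬ u.1 < u.2), F u = ∑ u ∈ PR N K, F u := by
    refine Finset.sum_bij (fun u _ => u.swap) ?_ ?_ ?_ ?_
    · intro u hu
      unfold Dg2 at hu
      unfold PR
      simp only [Finset.mem_filter, Finset.mem_product, Finset.mem_Icc, Prod.fst_swap,
        Prod.snd_swap] at hu ⊢
      omega
    · intro u _ v _ h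
      exact Prod.swap_injective h
    · intro u hu
      refine ⟨u.swap, ?_, Prod.swap_swap u⟩
      unfold PR at hu
      unfold Dg2
      simp only [Finset.mem_filter, Finset.mem_product, Finset.mem_Icc, Prod.fst_swap,
        Prod.snd_swap] at hu ⊢
      omega
    · intro u _
      exact (hF u).symm
  rw [h1, h2, h3]
  ring

theorem sum_f2 (N K : ℕ) : ∑ u ∈ Dg2 N K, ∑ v ∈ Dg2 N K, f2 u v ≤ 4 * (Npp N K : ℝ) := by
  classical
  have hs : ∀ u v, f2 u v.swap = f2 u v := by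
    intro u v
    unfold f2
    rw [kap_swap]
    simp only [Prod.fst_swap, Prod.snd_swap]
    congr 1
    simp only [eq_iff_iff]
    constructor
    · rintro ⟨h1, h2, h3⟩; exact ⟨h1, h2.symm, h3⟩
    · rintro ⟨h1, h2, h3⟩; exact ⟨h1, h2.symm, h3⟩
  have hs' : ∀ u v, f2 u.swap v = f2 u v := by
    intro u v
    unfold f2
    rw [kap_swap]
    simp only [Prod.fst_swap, Prod.snd_swap]
    congr 1
    simp only [eq_iff_iff]
    constructor
    · rintro ⟨h1, h2, h3⟩; exact ⟨h1.symm, h2, h3⟩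
    · rintro ⟨h1, h2, h3⟩; exact ⟨h1.symm, h2, h3⟩
  have h1 : ∀ u, ∑ v ∈ Dg2 N K, f2 u v = 2 * ∑ v ∈ PR N K, f2 u v := fun u =>
    sum_Dg2 N K (f2 u) (hs u)
  simp only [h1]
  rw [sum_Dg2 N K (fun u => 2 * ∑ v ∈ PR N K, f2 u v) (fun u => by simp only [hs'])]
  unfold Npp
  push_cast
  rw [Finset.mul_sum, Finset.mul_sum]
  refine Finset.sum_le_sum fun u _ => ?_
  rw [← mul_assoc]
  norm_num
  rw [Finset.card_filter]
  push_cast
  refine Finset.sum_le_sum fun v _ => ?_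
  unfold f2
  by_cases h : kap v = kap u
  · rw [if_pos h]
    split_ifs <;> norm_num
  · rw [if_neg h, if_neg (fun h' => h h'.2.2.symm)]

theorem card_dvd (N g : ℕ) : ((Icc 1 N).filter (fun n => g ∣ n)).card = N / g := by
  have h : Icc 1 N = Ioc 0 N := by
    ext x
    rw [Finset.mem_Icc, Finset.mem_Ioc]
    omega
  rw [h]
  exact Nat.Ioc_filter_dvd_card_eq_div N g

theorem gcd_count (N : ℕ) (G : ℝ) (hG : 1 ≤ G) :
    ∑ n ∈ Icc 1 N, ∑ m ∈ Icc 1 N, f1 G (n, m) ≤ 2 * (N : ℝ) ^ 2 / G := by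
  classical
  set c := ⌈G⌉₊ with hc
  have hc1 : 1 ≤ c := Nat.one_le_ceil_iff.2 (by linarith)
  have hcG : G ≤ c := Nat.le_ceil G
  have h1 : ∀ n ∈ Icc 1 N, ∀ m ∈ Icc 1 N, f1 G (n, m) ≤
      ∑ g ∈ Ioo (c - 1) (N + 1), (if g ∣ n then (1 : ℝ) else 0) * (if g ∣ m then (1 : ℝ) else 0) := by
    intro n hn m hm
    rw [Finset.mem_Icc] at hn hm
    have hpos : ∀ g ∈ Ioo (c - 1) (N + 1), (0 : ℝ) ≤
        (if g ∣ n then (1 : ℝ) else 0) * (if g ∣ m then (1 : ℝ) else 0) := by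
      intro g _
      split_ifs <;> norm_num
    unfold f1
    by_cases h : G ≤ (n.gcd m : ℝ)
    · rw [if_pos h]
      have h2 : c ≤ n.gcd m := Nat.ceil_le.2 h
      have h3 : n.gcd m ≤ n := Nat.le_of_dvd (by omega) (Nat.gcd_dvd_left n m)
      refine le_trans ?_ (Finset.single_le_sum hpos (a := n.gcd m) (by
        rw [Finset.mem_Ioo]; omega))
      rw [if_pos (Nat.gcd_dvd_left n m), if_pos (Nat.gcd_dvd_right n m)]
      norm_num
    · rw [if_neg h]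
      exact Finset.sum_nonneg hpos
  refine (Finset.sum_le_sum fun n hn => Finset.sum_le_sum fun m hm => h1 n hn m hm).trans ?_
  have h2 : ∑ n ∈ Icc 1 N, ∑ m ∈ Icc 1 N, ∑ g ∈ Ioo (c - 1) (N + 1),
      (if g ∣ n then (1 : ℝ) else 0) * (if g ∣ m then (1 : ℝ) else 0) =
      ∑ g ∈ Ioo (c - 1) (N + 1), ((N / g : ℕ) : ℝ) ^ 2 := by
    have e1 : ∀ n ∈ Icc 1 N, ∑ m ∈ Icc 1 N, ∑ g ∈ Ioo (c - 1) (N + 1),
        (if g ∣ n then (1 : ℝ) else 0) * (if g ∣ m then (1 : ℝ) else 0) =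
        ∑ g ∈ Ioo (c - 1) (N + 1), (if g ∣ n then (1 : ℝ) else 0) * ((N / g : ℕ) : ℝ) := by
      intro n _
      rw [Finset.sum_comm]
      refine Finset.sum_congr rfl fun g _ => ?_
      rw [← Finset.mul_sum, ← Finset.sum_filter, Finset.sum_const, card_dvd, nsmul_eq_mul, mul_one]
    rw [Finset.sum_congr rfl e1, Finset.sum_comm]
    refine Finset.sum_congr rfl fun g _ => ?_
    rw [← Finset.sum_mul, ← Finset.sum_filter, Finset.sum_const, card_dvd, nsmul_eq_mul, mul_one, sq]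
  rw [h2]
  have h3 : ∑ g ∈ Ioo (c - 1) (N + 1), ((N / g : ℕ) : ℝ) ^ 2 ≤
      (N : ℝ) ^ 2 * ∑ g ∈ Ioo (c - 1) (N + 1), ((g : ℝ) ^ 2)⁻¹ := by
    rw [Finset.mul_sum]
    refine Finset.sum_le_sum fun g _ => ?_
    have h4 : ((N / g : ℕ) : ℝ) ≤ (N : ℝ) / g := Nat.cast_div_le
    calc ((N / g : ℕ) : ℝ) ^ 2 ≤ ((N : ℝ) / g) ^ 2 := by gcongr
      _ = (N : ℝ) ^ 2 * ((g : ℝ) ^ 2)⁻¹ := by rw [div_pow]; rfl
  refine h3.trans ?_
  have h4 := sum_Ioo_inv_sq_le (α := ℝ) (c - 1) (N + 1)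
  have h5 : (((c - 1 : ℕ) : ℝ) + 1) = c := by
    have : c - 1 + 1 = c := by omega
    exact_mod_cast this
  rw [h5] at h4
  have hc0 : (0 : ℝ) < c := by exact_mod_cast hc1
  have hG0 : 0 < G := by linarith
  calc (N : ℝ) ^ 2 * ∑ g ∈ Ioo (c - 1) (N + 1), ((g : ℝ) ^ 2)⁻¹ ≤ (N : ℝ) ^ 2 * (2 / c) := by
        gcongr
    _ ≤ (N : ℝ) ^ 2 * (2 / G) := by gcongr
    _ = 2 * (N : ℝ) ^ 2 / G := by ring

theorem two {α : Type} [DecidableEq α] (A : Finset ℕ) (I : ℕ → Finset α) (D : Finset α) (K : ℕ)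
    (hI : ∀ a ∈ A, I a ⊆ D) (hK : ∀ x ∈ D, (A.filter (fun a => x ∈ I a)).card ≤ K)
    (g : α → α → ℝ) (hg : ∀ x y, 0 ≤ g x y) :
    ∑ a ∈ A, ∑ b ∈ A, ∑ x ∈ I a, ∑ y ∈ I b, g x y ≤ (K : ℝ) ^ 2 * ∑ x ∈ D, ∑ y ∈ D, g x y := by
  have h1 : ∀ a ∈ A, ∑ b ∈ A, ∑ x ∈ I a, ∑ y ∈ I b, g x y ≤
      ∑ x ∈ I a, (K : ℝ) * ∑ y ∈ D, g x y := by
    intro a _
    rw [Finset.sum_comm]
    exact Finset.sum_le_sum fun x _ => gen A I D K hI hK (g x) (hg x)
  refine (Finset.sum_le_sum h1).trans ?_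
  refine (gen A I D K hI hK (fun x => (K : ℝ) * ∑ y ∈ D, g x y) (fun x =>
    mul_nonneg (Nat.cast_nonneg _) (Finset.sum_nonneg fun y _ => hg x y))).trans ?_
  rw [← Finset.mul_sum, ← mul_assoc, sq]

/-- off-diagonal pairs in a window -/
def Jw (K a : ℕ) : Finset (ℕ × ℕ) :=
  (Ioc a (a + K) ×ˢ Ioc a (a + K)).filter (fun u => u.1 ≠ u.2)

theorem part2_eq (a b K : ℕ) :
    ∑ q ∈ Ioc a (a + K) ×ˢ Ioc b (b + K), ∑ q' ∈ Ioc a (a + K) ×ˢ Ioc b (b + K),
        f2 (q.1, q'.1) (q.2, q'.2) = ∑ u ∈ Jw K a, ∑ v ∈ Jw K b, f2 u v := by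
  classical
  have h1 : ∑ u ∈ Jw K a, ∑ v ∈ Jw K b, f2 u v =
      ∑ u ∈ Ioc a (a + K) ×ˢ Ioc a (a + K), ∑ v ∈ Ioc b (b + K) ×ˢ Ioc b (b + K), f2 u v := by
    have e1 : ∀ u, ∑ v ∈ Jw K b, f2 u v = ∑ v ∈ Ioc b (b + K) ×ˢ Ioc b (b + K), f2 u v := by
      intro u
      refine Finset.sum_filter_of_ne fun v _ hv => ?_
      intro h
      apply hv
      exact if_neg (fun h' => h'.2.1 h)
    simp only [e1]
    refine Finset.sum_filter_of_ne fun u _ hu => ?_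
    intro h
    apply hu
    refine Finset.sum_eq_zero fun v _ => ?_
    exact if_neg (fun h' => h'.1 h)
  rw [h1]
  simp only [Finset.sum_product]
  refine Finset.sum_congr rfl fun n _ => ?_
  rw [Finset.sum_comm]

theorem cross : SCross := by
  classical
  intro hcnt ε θ hε hε1 hθ
  obtain ⟨C1, hC1, hN⟩ := hcnt (ε / 2) (by linarith)
  refine ⟨min θ (ε / 2), 32 + 4 * C1 * (4 : ℝ) ^ (1 + ε / 2), lt_min hθ (by linarith),
    by positivity, ?_⟩
  intro M B B' K hB hB' hK hKB hM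
  have hB0 : (0 : ℝ) < B := by exact_mod_cast hB
  have hB1 : (1 : ℝ) ≤ B := by exact_mod_cast hB
  have hK0 : (0 : ℝ) < K := by exact_mod_cast hK
  have hKB' : K ≤ B := by
    have h1 : (B : ℝ) ^ (1 - ε) ≤ (B : ℝ) ^ (1 : ℝ) :=
      Real.rpow_le_rpow_of_exponent_le hB1 (by linarith)
    rw [Real.rpow_one] at h1
    exact_mod_cast hKB.trans h1
  have hG1 : 1 ≤ (B : ℝ) ^ θ := Real.one_le_rpow hB1 hθ.le
  have hG0 : 0 < (B : ℝ) ^ θ := by linarith
  set G := (B : ℝ) ^ θ with hG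
  -- the two parts
  have hle : ∀ a ∈ Ico B B', ∀ b ∈ Ico B B',
      nsq (fun x : Fin M → ℤˣ => Gc (cf M x) G a b K) ≤
      ∑ n ∈ Ioc a (a + K), ∑ m ∈ Ioc b (b + K), f1 G (n, m) +
        ∑ u ∈ Jw K a, ∑ v ∈ Jw K b, f2 u v := by
    intro a ha b hb
    rw [Finset.mem_Ico] at ha hb
    have h1 := nsq_le M a b K G (by omega) (by omega)
    rw [part2_eq, Finset.sum_product] at h1
    exact h1
  refine (Finset.sum_le_sum fun a ha => Finset.sum_le_sum fun b hb => hle a ha b hb).trans ?_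
  simp only [Finset.sum_add_distrib]
  have p1 : ∑ a ∈ Ico B B', ∑ b ∈ Ico B B', ∑ n ∈ Ioc a (a + K), ∑ m ∈ Ioc b (b + K),
      f1 G (n, m) ≤ (K : ℝ) ^ 2 * (2 * ((4 * B : ℕ) : ℝ) ^ 2 / G) := by
    refine (two (Ico B B') (fun a => Ioc a (a + K)) (Icc 1 (4 * B)) K ?_ ?_
      (fun n m => f1 G (n, m)) (fun n m => f1_nonneg _ _)).trans ?_
    · intro a ha x hx
      rw [Finset.mem_Ico] at ha
      rw [Finset.mem_Ioc] at hx
      rw [Finset.mem_Icc]
      omega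
    · intro x _
      exact card_a _ K x
    · exact mul_le_mul_of_nonneg_left (gcd_count (4 * B) G hG1) (by positivity)
  have p2 : ∑ a ∈ Ico B B', ∑ b ∈ Ico B B', ∑ u ∈ Jw K a, ∑ v ∈ Jw K b, f2 u v ≤
      (K : ℝ) ^ 2 * (4 * (C1 * ((4 * B : ℕ) : ℝ) ^ (1 + ε / 2) * K)) := by
    refine (two (Ico B B') (fun a => Jw K a) (Dg2 (4 * B) K) K ?_ ?_ f2 f2_nonneg).trans ?_
    · intro a ha u hu
      rw [Finset.mem_Ico] at ha
      unfold Jw at hu
      unfold Dg2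
      simp only [Finset.mem_filter, Finset.mem_product, Finset.mem_Icc, Finset.mem_Ioc] at hu ⊢
      omega
    · intro u _
      refine le_trans (Finset.card_le_card ?_) (card_a (Ico B B') K u.1)
      intro a ha
      rw [Finset.mem_filter] at ha ⊢
      refine ⟨ha.1, ?_⟩
      have h1 := ha.2
      unfold Jw at h1
      simp only [Finset.mem_filter, Finset.mem_product] at h1
      exact h1.1.1
    · refine mul_le_mul_of_nonneg_left ?_ (by positivity)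
      refine (sum_f2 (4 * B) K).trans ?_
      have h1 := hN (4 * B) K (by omega)
      linarith
  have hmin1 : min θ (ε / 2) ≤ θ := min_le_left _ _
  have hmin2 : min θ (ε / 2) ≤ ε / 2 := min_le_right _ _
  -- first exponent
  have q1 : 2 * ((4 * B : ℕ) : ℝ) ^ 2 / G ≤ 32 * (B : ℝ) ^ (2 - min θ (ε / 2)) := by
    have e1 : ((4 * B : ℕ) : ℝ) = 4 * (B : ℝ) := by push_cast; ring
    have e2 : 2 * (4 * (B : ℝ)) ^ 2 / G = 32 * (B : ℝ) ^ (2 - θ) := by
      rw [Real.rpow_sub hB0, hG, Real.rpow_two]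
      ring
    rw [e1, e2]
    have h1 : (B : ℝ) ^ (2 - θ) ≤ (B : ℝ) ^ (2 - min θ (ε / 2)) :=
      Real.rpow_le_rpow_of_exponent_le hB1 (by linarith)
    linarith
  have q2 : ((4 * B : ℕ) : ℝ) ^ (1 + ε / 2) * K ≤
      (4 : ℝ) ^ (1 + ε / 2) * (B : ℝ) ^ (2 - min θ (ε / 2)) := by
    have e1 : ((4 * B : ℕ) : ℝ) = 4 * (B : ℝ) := by push_cast; ring
    rw [e1, Real.mul_rpow (by norm_num) hB0.le, mul_assoc]
    refine mul_le_mul_of_nonneg_left ?_ (by positivity)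
    calc (B : ℝ) ^ (1 + ε / 2) * K ≤ (B : ℝ) ^ (1 + ε / 2) * (B : ℝ) ^ (1 - ε) := by gcongr
      _ = (B : ℝ) ^ (2 - ε / 2) := by
        rw [← Real.rpow_add hB0]
        congr 1
        ring
      _ ≤ (B : ℝ) ^ (2 - min θ (ε / 2)) :=
        Real.rpow_le_rpow_of_exponent_le hB1 (by linarith)
  have hK2 : (0 : ℝ) ≤ (K : ℝ) ^ 2 := by positivity
  have r1 := mul_le_mul_of_nonneg_left q1 hK2
  have r2 : (K : ℝ) ^ 2 * (4 * (C1 * ((4 * B : ℕ) : ℝ) ^ (1 + ε / 2) * K)) ≤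
      (K : ℝ) ^ 2 * (4 * C1 * ((4 : ℝ) ^ (1 + ε / 2) * (B : ℝ) ^ (2 - min θ (ε / 2)))) := by
    refine mul_le_mul_of_nonneg_left ?_ hK2
    have h1 := mul_le_mul_of_nonneg_left q2 (by positivity : (0 : ℝ) ≤ 4 * C1)
    calc 4 * (C1 * ((4 * B : ℕ) : ℝ) ^ (1 + ε / 2) * K) =
        4 * C1 * (((4 * B : ℕ) : ℝ) ^ (1 + ε / 2) * K) := by ring
      _ ≤ _ := h1
  calc _ ≤ (K : ℝ) ^ 2 * (2 * ((4 * B : ℕ) : ℝ) ^ 2 / G) +
        (K : ℝ) ^ 2 * (4 * (C1 * ((4 * B : ℕ) : ℝ) ^ (1 + ε / 2) * K)) := add_le_add p1 p2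
    _ ≤ (K : ℝ) ^ 2 * (32 * (B : ℝ) ^ (2 - min θ (ε / 2))) +
        (K : ℝ) ^ 2 * (4 * C1 * ((4 : ℝ) ^ (1 + ε / 2) * (B : ℝ) ^ (2 - min θ (ε / 2)))) :=
        add_le_add r1 r2
    _ = (32 + 4 * C1 * (4 : ℝ) ^ (1 + ε / 2)) * (B : ℝ) ^ (2 - min θ (ε / 2)) * (K : ℝ) ^ 2 := by
        ring

end Pool.Agent.W933.RGE
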